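import Pool.Agent.H21.E.Fs

/-! The fast transform of the rows. -/

set_option autoImplicit false
set_option maxRecDepth 100000
set_option exponentiation.threshold 40000
open Finset

namespace Pool.Agent.H21.E
open Pool.Agent.T2H33.K6

noncomputable section

/-- signed value -/
def sv (b K x : ℕ) : ℕ := if b = 0 then x else K - x

/-- parity of the number of common bits below `n` -/
def par (n M p : ℕ) : ℕ := @Nat.rec (fun _ => ℕ) 0 (fun n ih => Nat.mod (Nat.add ih (Nat.mul (bt n M) (bt n p))) 2) n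

theorem par_succ (n M p : ℕ) : par (n + 1) M p = (par n M p + bt n M * bt n p) % 2 := rfl

theorem par_lt (n M p : ℕ) : par n M p < 2 := by
  cases n with
  | zero => show 0 < 2; norm_num
  | succ n => rw [par_succ]; exact Nat.mod_lt _ (by norm_num)

theorem bt_low {k i x : ℕ} (h : k < i) : bt k (2 ^ i + x) = bt k x := bt_add h x

theorem par_addL {n i M p : ℕ} (h : n ≤ i) : par n (2 ^ i + M) p = par n M p := by
  induction n with
  | zero => rfl
  | succ n ih => rw [par_succ, par_succ, ih (by omega), bt_low (by omega)]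

theorem par_addR {n i M p : ℕ} (h : n ≤ i) : par n M (2 ^ i + p) = par n M p := by
  induction n with
  | zero => rfl
  | succ n ih => rw [par_succ, par_succ, ih (by omega), bt_low (by omega)]

theorem sv_le {b K x : ℕ} (h : x ≤ K) : sv b K x ≤ K := by
  unfold sv; split_ifs <;> omega

theorem sv_flip {b K x : ℕ} (hb : b < 2) (h : x ≤ K) : sv ((b + 1) % 2) K x = K - sv b K x := by
  interval_cases b
  · show sv 1 K x = K - sv 0 K x; rfl
  · show sv 0 K x = K - sv 1 K x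
    show x = K - (K - x)
    omega

theorem sv_sv {b c K x : ℕ} (hb : b < 2) (hc : c < 2) (h : x ≤ K) : sv b K (sv c K x) = sv ((b + c) % 2) K x := by
  interval_cases b <;> interval_cases c
  · rfl
  · rfl
  · rfl
  · show K - (K - x) = x
    omega

theorem sum_flip (n : ℕ) (K x : ℕ → ℕ) (h : ∀ i < n, x i ≤ K i) :
    ∑ i ∈ range n, (K i - x i) = ∑ i ∈ range n, K i - ∑ i ∈ range n, x i := by
  have e : ∑ i ∈ range n, (K i - x i) + ∑ i ∈ range n, x i = ∑ i ∈ range n, K i := by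
    rw [← sum_add_distrib]
    exact sum_congr rfl fun i hi => Nat.sub_add_cancel (h i (mem_range.mp hi))
  omega

theorem sv_sum (b n : ℕ) (K x : ℕ → ℕ) (h : ∀ i < n, x i ≤ K i) :
    sv b (∑ i ∈ range n, K i) (∑ i ∈ range n, x i) = ∑ i ∈ range n, sv b (K i) (x i) := by
  unfold sv
  by_cases hb : b = 0
  · simp only [if_pos hb]
  · simp only [if_neg hb]
    exact (sum_flip n K x h).symm

theorem KS_eq (i L : ℕ) : KS i L = ∑ M ∈ range (2 ^ i), KG (L + M) := by
  show sm (2 ^ i) (fun M => st KG (L + M)) = _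
  rw [sm_sum]
  exact sum_congr rfl fun M _ => st_eq _ _

theorem BF_succ (G : ℕ → ℕ) (i L : ℕ) : BF G (i + 1) L = (BF G i L + BF G i (L + 2 ^ i)) +
    (BF G i L + (KS i (L + 2 ^ i) * one 32 (10 + i) - BF G i (L + 2 ^ i))) * 2 ^ (32 * 2 ^ (10 + i)) := by
  have e : BF G (i + 1) L = st (fun L' => Nat.add (Nat.add (BF G i L) (BF G i L'))
    (Nat.shiftLeft (Nat.add (BF G i L) (Nat.sub (Nat.mul (KS i L') (one 32 (Nat.add 10 i))) (BF G i L'))) (Nat.mul 32768 (Nat.pow 2 i))))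
    (Nat.add L (Nat.pow 2 i)) := rfl
  rw [e, st_eq]
  have h : Nat.shiftLeft (Nat.add (BF G i L) (Nat.sub (Nat.mul (KS i (Nat.add L (Nat.pow 2 i))) (one 32 (Nat.add 10 i))) (BF G i (Nat.add L (Nat.pow 2 i)))))
      (Nat.mul 32768 (Nat.pow 2 i)) = (BF G i L + (KS i (L + 2 ^ i) * one 32 (10 + i) - BF G i (L + 2 ^ i))) * 2 ^ (32 * 2 ^ (10 + i)) := by
    rw [show Nat.mul 32768 (Nat.pow 2 i) = 32 * 2 ^ (10 + i) from by
      show 32768 * 2 ^ i = _
      rw [pow_add]; ring]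
    exact Nat.shiftLeft_eq _ _
  rw [h]
  rfl

/-- the functions -/
def Bv (Gf : ℕ → ℕ → ℕ) (i L q : ℕ) : ℕ :=
  ∑ M ∈ range (2 ^ i), sv (par i M (q / 1024)) (KG (L + M)) (Gf (L + M) (q % 1024))

theorem Bv_le {Gf : ℕ → ℕ → ℕ} (hb : ∀ L < 64, ∀ y < 1024, Gf L y ≤ KG L) {i L q : ℕ} (hL : L + 2 ^ i ≤ 64) :
    Bv Gf i L q ≤ KS i L := by
  rw [KS_eq]
  exact sum_le_sum fun M hM => sv_le (hb _ (by have := mem_range.mp hM; omega) _ (Nat.mod_lt _ (by norm_num)))

theorem div_lt' {i q : ℕ} (h : q < 2 ^ (10 + i)) : q / 1024 < 2 ^ i := by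
  refine Nat.div_lt_of_lt_mul ?_
  rw [pow_add] at h
  exact h

theorem Bv_lo {Gf : ℕ → ℕ → ℕ} {i L q : ℕ} (hq : q < 2 ^ (10 + i)) :
    Bv Gf (i + 1) L q = Bv Gf i L q + Bv Gf i (L + 2 ^ i) q := by
  have hp := div_lt' hq
  unfold Bv
  rw [pow_succ, mul_two, sum_range_add]
  congr 1
  · refine sum_congr rfl fun M _ => ?_
    rw [par_succ, bt_lt hp, mul_zero, add_zero, Nat.mod_eq_of_lt (par_lt _ _ _)]
  · refine sum_congr rfl fun M _ => ?_
    rw [par_succ, bt_lt hp, mul_zero, add_zero, Nat.mod_eq_of_lt (par_lt _ _ _), par_addL (le_refl i), add_assoc]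

theorem Bv_hi {Gf : ℕ → ℕ → ℕ} (hb : ∀ L < 64, ∀ y < 1024, Gf L y ≤ KG L) {i L q : ℕ} (hL : L + 2 ^ (i + 1) ≤ 64)
    (hq : q < 2 ^ (10 + i)) :
    Bv Gf (i + 1) L (2 ^ (10 + i) + q) = Bv Gf i L q + (KS i (L + 2 ^ i) - Bv Gf i (L + 2 ^ i) q) := by
  have hp := div_lt' hq
  have h2 : 2 ^ (i + 1) = 2 ^ i + 2 ^ i := by rw [pow_succ, mul_two]
  have e1 : (2 ^ (10 + i) + q) / 1024 = 2 ^ i + q / 1024 := by
    rw [pow_add, show (2 : ℕ) ^ 10 = 1024 from rfl, Nat.mul_add_div (by norm_num)]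
  have e2 : (2 ^ (10 + i) + q) % 1024 = q % 1024 := by
    rw [pow_add, show (2 : ℕ) ^ 10 = 1024 from rfl, Nat.mul_add_mod]
  unfold Bv
  rw [e1, e2, h2, sum_range_add]
  congr 1
  · refine sum_congr rfl fun M hM => ?_
    rw [par_succ, bt_lt (mem_range.mp hM), zero_mul, add_zero, Nat.mod_eq_of_lt (par_lt _ _ _), par_addR (le_refl i)]
  · rw [KS_eq, ← sum_flip]
    · refine sum_congr rfl fun M hM => ?_
      rw [par_succ, bt_add_self (mem_range.mp hM), bt_add_self hp, par_addR (le_refl i), par_addL (le_refl i), one_mul,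
        ← add_assoc L, sv_flip (par_lt _ _ _)]
      exact hb _ (by have := mem_range.mp hM; omega) _ (Nat.mod_lt _ (by norm_num))
    · intro M hM
      exact sv_le (hb _ (by omega) _ (Nat.mod_lt _ (by norm_num)))

theorem BF_enc {G : ℕ → ℕ} {Gf : ℕ → ℕ → ℕ} (hG : ∀ L < 64, G L = enc 32 10 (Gf L))
    (hb : ∀ L < 64, ∀ y < 1024, Gf L y ≤ KG L) (i : ℕ) : ∀ L, L + 2 ^ i ≤ 64 → BF G i L = enc 32 (10 + i) (Bv Gf i L) := by
  induction i with
  | zero =>
    intro L hL
    show G L = _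
    rw [hG L (by omega)]
    refine enc_congr fun q hq => ?_
    have hq' : q < 1024 := hq
    show Gf L q = ∑ M ∈ range 1, _
    rw [sum_range_one]
    show Gf L q = Gf (L + 0) (q % 1024)
    rw [add_zero, Nat.mod_eq_of_lt hq']
  | succ i ih =>
    intro L hL
    have h2 : 2 ^ (i + 1) = 2 ^ i + 2 ^ i := by rw [pow_succ, mul_two]
    have h3 : 0 < 2 ^ i := by positivity
    have hu := ih L (by omega)
    have hv := ih (L + 2 ^ i) (by omega)
    rw [BF_succ, hu, hv, one_eq]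
    have e1 : KS i (L + 2 ^ i) * enc 32 (10 + i) (fun _ => 1) = enc 32 (10 + i) (fun _ => KS i (L + 2 ^ i)) := mul_one_enc _ _
    rw [e1, enc_sub' _ _ _ _ fun q _ => Bv_le hb (by omega), enc_add, enc_add]
    rw [show 10 + (i + 1) = (10 + i) + 1 from rfl, enc_succ]
    congr 1
    · exact enc_congr fun q hq => (Bv_lo hq).symm
    · congr 1
      exact enc_congr fun q hq => (Bv_hi hb hL hq).symm

theorem FS_sv (x : ℕ) (g : ℕ → ℕ) : FS 1 x g = ∑ k ∈ range 146, sv (bt x (SG k)) (K2 k) (g k) := by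
  show sm 146 _ = _
  rw [sm_sum]
  refine sum_congr rfl fun k _ => ?_
  show cnd (Nat.beq (bt x (SG k)) 0) (g k) (K2 k * 1 - g k) = _
  rcases bt_cases x (SG k) with ⟨h, h'⟩ | ⟨h, h'⟩
  · rw [h, h']; rfl
  · rw [h, h', mul_one]; rfl

/-- the intervals and the signs -/
theorem gs_ok : al 63 (fun L => Nat.beq (Nat.add (GS L) (GN L)) (GS (Nat.add L 1))) = true := by decide +kernel
theorem gs0 : GS 0 = 0 := by decide +kernel
theorem gs63 : GS 63 + GN 63 = 146 := by decide +kernel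
theorem pm_ok : (range 146).image PM = range 146 := by decide +kernel
theorem sg_ok : al 64 (fun L => al (GN L) (fun j => st (fun k => al 16 (fun h => al 64 (fun p =>
    Nat.beq (bt (Nat.add p (Nat.mul 64 h)) (SG k)) (Nat.mod (Nat.add (par 6 L p) (bt h (HS k))) 2)))) (PM (Nat.add (GS L) j)))) = true := by
  decide +kernel

attribute [local irreducible] K2 SG HS PM GS GN O10 enc fld

theorem gs_le (L : ℕ) (hL : L < 64) : GS L + GN L ≤ 146 := by
  have key : ∀ j, ∀ L, L + j = 63 → GS L + GN L ≤ 146 := by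
    intro j
    induction j with
    | zero =>
      intro L h
      have : L = 63 := by omega
      subst this
      exact le_of_eq gs63
    | succ j ih =>
      intro L h
      have h1 : GS L + GN L = GS (L + 1) := Nat.eq_of_beq_eq_true (al_true gs_ok (k := L) (by omega))
      have h2 := ih (L + 1) (by omega)
      omega
  exact key (63 - L) L (by omega)

theorem pm_lt {j : ℕ} (hj : j < 146) : PM j < 146 := by
  have : PM j ∈ (range 146).image PM := mem_image_of_mem _ (mem_range.mpr hj)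
  rw [pm_ok] at this
  exact mem_range.mp this

theorem sum_pm (φ : ℕ → ℕ) : ∑ L ∈ range 64, ∑ j ∈ range (GN L), φ (PM (GS L + j)) = ∑ k ∈ range 146, φ k := by
  have h1 : ∀ n, n ≤ 63 → ∑ L ∈ range n, ∑ j ∈ range (GN L), φ (PM (GS L + j)) = ∑ j ∈ range (GS n), φ (PM j) := by
    intro n
    induction n with
    | zero => intro _; rw [gs0]; rfl
    | succ n ih =>
      intro hn
      have h2 : GS n + GN n = GS (n + 1) := Nat.eq_of_beq_eq_true (al_true gs_ok (k := n) (by omega))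
      rw [sum_range_succ, ih (by omega), ← h2, sum_range_add]
  rw [sum_range_succ (n := 63), h1 63 (le_refl _), ← sum_range_add, gs63]
  have hinj : Set.InjOn PM (range 146 : Set ℕ) := by
    rw [← card_image_iff, pm_ok]
  have e : ∑ k ∈ range 146, φ k = ∑ k ∈ (range 146).image PM, φ k := by rw [pm_ok]
  rw [e, sum_image (fun x hx y hy h => hinj hx hy h)]

theorem sm_st (n : ℕ) (f : ℕ → ℕ) (a : ℕ → ℕ) : sm n (fun j => st f (a j)) = ∑ j ∈ range n, f (a j) := by
  rw [sm_sum]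
  exact sum_congr rfl fun j _ => st_eq _ _

theorem KG_eq (L : ℕ) : KG L = ∑ j ∈ range (GN L), K2 (PM (GS L + j)) := sm_st _ _ _

/-- the entries of the group `L` -/
def Gf (hf : ℕ) (r : ℕ → ℕ → ℕ) (L y : ℕ) : ℕ := ∑ j ∈ range (GN L), sv (bt hf (HS (PM (GS L + j)))) (K2 (PM (GS L + j))) (r (PM (GS L + j)) y)

theorem sg_enc {hf : ℕ} {g : ℕ → ℕ} {r : ℕ → ℕ → ℕ} {k : ℕ} (hg : g k = enc 32 10 (r k)) (hr : ∀ y < 1024, r k y ≤ K2 k) :
    sg O10 hf g k = enc 32 10 (fun y => sv (bt hf (HS k)) (K2 k) (r k y)) := by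
  unfold sg
  rcases bt_cases hf (HS k) with ⟨h, h'⟩ | ⟨h, h'⟩
  · have e : (fun y => sv (bt hf (HS k)) (K2 k) (r k y)) = r k := by
      funext y
      rw [h']
      rfl
    rw [h, e]
    exact hg
  · have e : (fun y => sv (bt hf (HS k)) (K2 k) (r k y)) = fun y => K2 k - r k y := by
      funext y
      rw [h']
      rfl
    rw [h, e]
    show Nat.sub (Nat.mul (K2 k) O10) (g k) = _
    rw [hg, O10_eq, mul_one_enc]
    exact enc_sub' 32 10 (fun _ => K2 k) (r k) fun y hy => hr y hy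

theorem Gv_enc {hf : ℕ} {g : ℕ → ℕ} {r : ℕ → ℕ → ℕ} (hg : ∀ k < 146, g k = enc 32 10 (r k))
    (hr : ∀ k < 146, ∀ y < 1024, r k y ≤ K2 k) {L : ℕ} (hL : L < 64) : Gv O10 hf g L = enc 32 10 (Gf hf r L) := by
  have h0 := gs_le L hL
  have h1 : Gv O10 hf g L = sm (GN L) (fun j => enc 32 10 (fun y => sv (bt hf (HS (PM (GS L + j)))) (K2 (PM (GS L + j))) (r (PM (GS L + j)) y))) := by
    show sm (GN L) (fun j => st (fun k => sg O10 hf g k) (PM (GS L + j))) = _
    refine sm_congr fun j hj => ?_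
    rw [st_eq]
    have hk := pm_lt (j := GS L + j) (by omega)
    exact sg_enc (hg _ hk) (hr _ hk)
  rw [h1, sm_enc 32 10 (GN L) (fun j y => sv (bt hf (HS (PM (GS L + j)))) (K2 (PM (GS L + j))) (r (PM (GS L + j)) y))]
  rfl

theorem Gf_le {hf : ℕ} {r : ℕ → ℕ → ℕ} (hr : ∀ k < 146, ∀ y < 1024, r k y ≤ K2 k) {L : ℕ} (hL : L < 64) {y : ℕ} (hy : y < 1024) :
    Gf hf r L y ≤ KG L := by
  rw [KG_eq]
  have h0 := gs_le L hL
  exact sum_le_sum fun j hj => sv_le (hr _ (pm_lt (by have := mem_range.mp hj; omega)) y hy)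

/-- **the transform computes the signed sums** -/
theorem BF_FS {hf : ℕ} (hhf : hf < 16) {g : ℕ → ℕ} {r : ℕ → ℕ → ℕ} (hg : ∀ k < 146, g k = enc 32 10 (r k))
    (hr : ∀ k < 146, ∀ y < 1024, r k y ≤ K2 k) :
    BF (fun L => Gv O10 hf g L) 6 0 = enc 32 16 (fun q => FS 1 (q / 1024 + 64 * hf) (fun k => r k (q % 1024))) := by
  rw [BF_enc (fun L hL => Gv_enc hg hr hL) (fun L hL y hy => Gf_le hr hL hy) 6 0 (by norm_num)]
  refine enc_congr fun q hq => ?_
  have hp : q / 1024 < 64 := Nat.div_lt_of_lt_mul hq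
  have hy : q % 1024 < 1024 := Nat.mod_lt _ (by norm_num)
  rw [FS_sv]
  show ∑ M ∈ range 64, sv (par 6 M (q / 1024)) (KG (0 + M)) (Gf hf r (0 + M) (q % 1024)) = _
  rw [← sum_pm]
  refine sum_congr rfl fun M hM => ?_
  have hM' := mem_range.mp hM
  have h0 := gs_le M hM'
  rw [zero_add, KG_eq]
  unfold Gf
  rw [sv_sum _ _ (fun j => K2 (PM (GS M + j))) (fun j => sv (bt hf (HS (PM (GS M + j)))) (K2 (PM (GS M + j))) (r (PM (GS M + j)) (q % 1024)))]
  · refine sum_congr rfl fun j hj => ?_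
    have hj' := mem_range.mp hj
    have hk := pm_lt (j := GS M + j) (by omega)
    rw [sv_sv (par_lt _ _ _) (by rcases bt01 hf (HS (PM (GS M + j))) with h | h <;> omega) (hr _ hk _ hy)]
    have h1 := al_true (al_true sg_ok hM') hj'
    rw [st_eq] at h1
    have h2 : bt (q / 1024 + 64 * hf) (SG (PM (GS M + j))) = (par 6 M (q / 1024) + bt hf (HS (PM (GS M + j)))) % 2 :=
      Nat.eq_of_beq_eq_true (al_true (al_true h1 hhf) hp)
    rw [h2]
  · intro j hj
    exact sv_le (hr _ (pm_lt (by omega)) _ hy)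

end

end Pool.Agent.H21.E
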