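import Pool.Agent.H21.E.Sum
import Pool.Agent.H3.Y.St

/-! The upper bound for the number of edges of `K_5^4`-free `4`-graphs. -/

set_option autoImplicit false
open Finset Filter Topology

namespace Pool.Agent.H21.E
open Pool.Agent.T2H33.K6
open Pool.Agent.H3.Y (FourGraph K5Free ind)

section
variable {V : Type} [DecidableEq V]

theorem ind_sy (H : Finset (Finset V)) : Sy (ind H) where
  s1 := fun a b c d => by
    unfold ind
    rw [show ({b, a, c, d} : Finset V) = {a, b, c, d} from by ext; simp; tauto]
  s2 := fun a b c d => by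
    unfold ind
    rw [show ({a, c, b, d} : Finset V) = {a, b, c, d} from by ext; simp; tauto]
  s3 := fun a b c d => by
    unfold ind
    rw [show ({a, b, d, c} : Finset V) = {a, b, c, d} from by ext; simp; tauto]
  lt := fun a b c d => by
    unfold ind
    split_ifs <;> norm_num

theorem ind_one {H : Finset (Finset V)} {a b c d : V} (h : ind H a b c d = 1) :
    ({a, b, c, d} : Finset V) ∈ H := by
  unfold ind at h
  by_contra hc
  rw [if_neg hc] at h
  exact absurd h (by norm_num)

theorem ind_zero {H : Finset (Finset V)} {a b c d : V} (h : ind H a b c d = 0) :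
    ({a, b, c, d} : Finset V) ∉ H := by
  intro hc
  unfold ind at h
  rw [if_pos hc] at h
  exact absurd h (by norm_num)

theorem quad_eq {a b c d : V} (h : ({a, b, c, d} : Finset V).card = 4) :
    a ≠ b ∧ a ≠ c ∧ a ≠ d ∧ b ≠ c ∧ b ≠ d ∧ c ≠ d := by
  have key : ∀ p q r : V, ({p, q, r} : Finset V).card ≤ 3 := fun p q r => Finset.card_le_three
  refine ⟨?_, ?_, ?_, ?_, ?_, ?_⟩
  · rintro rfl
    rw [show ({a, a, c, d} : Finset V) = {a, c, d} from by ext; simp] at h
    have := key a c d; omega
  · rintro rfl
    rw [show ({a, b, a, d} : Finset V) = {a, b, d} from by ext; simp; tauto] at h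
    have := key a b d; omega
  · rintro rfl
    rw [show ({a, b, c, a} : Finset V) = {a, b, c} from by ext; simp; tauto] at h
    have := key a b c; omega
  · rintro rfl
    rw [show ({a, b, b, d} : Finset V) = {a, b, d} from by ext; simp] at h
    have := key a b d; omega
  · rintro rfl
    rw [show ({a, b, c, b} : Finset V) = {a, b, c} from by ext; simp; tauto] at h
    have := key a b c; omega
  · rintro rfl
    rw [show ({a, b, c, c} : Finset V) = {a, b, c} from by ext; simp] at h
    have := key a b c; omega

theorem sub5 {a b c d e : V} (hab : a ≠ b) (hac : a ≠ c) (had : a ≠ d) (hae : a ≠ e) (hbc : b ≠ c) (hbd : b ≠ d)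
    (hbe : b ≠ e) (hcd : c ≠ d) (hce : c ≠ e) (hde : d ≠ e) {T : Finset V} (hT : T ∈ ({a, b, c, d, e} : Finset V).powersetCard 4) :
    T = {a, b, c, d} ∨ T = {a, b, c, e} ∨ T = {a, b, d, e} ∨ T = {a, c, d, e} ∨ T = {b, c, d, e} := by
  obtain ⟨h1, h2⟩ := mem_powersetCard.mp hT
  have h5 : ({a, b, c, d, e} : Finset V).card = 5 := by
    rw [card_insert_of_notMem, card_insert_of_notMem, card_insert_of_notMem, card_insert_of_notMem,
      card_singleton]
    · simp [hde]
    · simp [hcd, hce]
    · simp [hbc, hbd, hbe]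
    · simp [hab, hac, had, hae]
  have hcard : (({a, b, c, d, e} : Finset V) \ T).card = 1 := by
    rw [card_sdiff_of_subset h1]; omega
  obtain ⟨v, hv⟩ := card_eq_one.mp hcard
  have hSeq : T = ({a, b, c, d, e} : Finset V).erase v := by
    rw [← sdiff_singleton_eq_erase, ← hv, Finset.sdiff_sdiff_eq_self h1]
  have hvT : v ∈ ({a, b, c, d, e} : Finset V) := by
    have : v ∈ ({a, b, c, d, e} : Finset V) \ T := by rw [hv]; exact mem_singleton_self v
    exact (mem_sdiff.mp this).1
  simp only [mem_insert, mem_singleton] at hvT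
  rcases hvT with rfl | rfl | rfl | rfl | rfl
  · right; right; right; right
    rw [hSeq]; ext w; simp only [mem_insert, mem_singleton, mem_erase]
    constructor
    · tauto
    · rintro (rfl | rfl | rfl | rfl)
      · exact ⟨hab.symm, by tauto⟩
      · exact ⟨hac.symm, by tauto⟩
      · exact ⟨had.symm, by tauto⟩
      · exact ⟨hae.symm, by tauto⟩
  · right; right; right; left
    rw [hSeq]; ext w; simp only [mem_insert, mem_singleton, mem_erase]
    constructor
    · tauto
    · rintro (rfl | rfl | rfl | rfl)
      · exact ⟨hab, by tauto⟩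
      · exact ⟨hbc.symm, by tauto⟩
      · exact ⟨hbd.symm, by tauto⟩
      · exact ⟨hbe.symm, by tauto⟩
  · right; right; left
    rw [hSeq]; ext w; simp only [mem_insert, mem_singleton, mem_erase]
    constructor
    · tauto
    · rintro (rfl | rfl | rfl | rfl)
      · exact ⟨hac, by tauto⟩
      · exact ⟨hbc, by tauto⟩
      · exact ⟨hcd.symm, by tauto⟩
      · exact ⟨hce.symm, by tauto⟩
  · right; left
    rw [hSeq]; ext w; simp only [mem_insert, mem_singleton, mem_erase]
    constructor
    · tauto
    · rintro (rfl | rfl | rfl | rfl)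
      · exact ⟨had, by tauto⟩
      · exact ⟨hbd, by tauto⟩
      · exact ⟨hcd, by tauto⟩
      · exact ⟨hde.symm, by tauto⟩
  · left
    rw [hSeq]; ext w; simp only [mem_insert, mem_singleton, mem_erase]
    constructor
    · tauto
    · rintro (rfl | rfl | rfl | rfl)
      · exact ⟨hae, by tauto⟩
      · exact ⟨hbe, by tauto⟩
      · exact ⟨hce, by tauto⟩
      · exact ⟨hde, by tauto⟩

theorem ind_nk {H : Finset (Finset V)} (h4 : FourGraph H) (hK : K5Free H) : NK (ind H) := by
  rintro a b c d e ⟨h1, h2, h3, h5, h6⟩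
  have k1 := ind_one h1
  have k2 := ind_one h2
  have k3 := ind_one h3
  have k5 := ind_one h5
  have k6 := ind_one h6
  obtain ⟨ab, ac, ad, bc, bd, cd'⟩ := quad_eq (h4 _ k1)
  obtain ⟨-, -, ae, -, be, ce⟩ := quad_eq (h4 _ k2)
  obtain ⟨-, -, -, -, -, de⟩ := quad_eq (h4 _ k3)
  have hT : ({a, b, c, d, e} : Finset V).card = 5 := by
    rw [card_insert_of_notMem, card_insert_of_notMem, card_insert_of_notMem, card_insert_of_notMem,
      card_singleton]
    · simp [de]
    · simp [cd', ce]
    · simp [bc, bd, be]
    · simp [ab, ac, ad, ae]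
  refine hK ⟨_, hT, fun T hT' => ?_⟩
  rcases sub5 ab ac ad ae bc bd be cd' ce de hT' with rfl | rfl | rfl | rfl | rfl
  · exact k1
  · exact k2
  · exact k3
  · exact k5
  · exact k6

end


section
variable {V : Type} [Fintype V] [DecidableEq V]

/-- every quadruple has twenty-four orderings -/
theorem orderings (S : Finset V) (hS : S.card = 4) :
    24 ≤ ∑ a : V, ∑ b : V, ∑ c : V, ∑ d : V, if ({a, b, c, d} : Finset V) = S then 1 else 0 := by
  have e := S.equivFinOfCardEq hS
  set f : Fin 4 → V := fun i => (e.symm i : V) with hf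
  have finj : Function.Injective f := fun i j h => e.symm.injective (Subtype.ext h)
  have himg : ∀ s : Equiv.Perm (Fin 4), ({f (s 0), f (s 1), f (s 2), f (s 3)} : Finset V) = S := by
    intro s
    have h1 : ({f (s 0), f (s 1), f (s 2), f (s 3)} : Finset V) = univ.image (fun i => f (s i)) := by
      ext v
      simp only [mem_insert, mem_singleton, mem_image, mem_univ, true_and]
      constructor
      · rintro (rfl | rfl | rfl | rfl)
        · exact ⟨0, rfl⟩
        · exact ⟨1, rfl⟩
        · exact ⟨2, rfl⟩
        · exact ⟨3, rfl⟩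
      · rintro ⟨i, rfl⟩
        fin_cases i <;> simp
    rw [h1]
    ext v
    simp only [mem_image, mem_univ, true_and]
    constructor
    · rintro ⟨i, rfl⟩
      exact (e.symm (s i)).2
    · intro hv
      refine ⟨s.symm (e ⟨v, hv⟩), ?_⟩
      simp [hf]
  have hcount : (univ.filter fun t : V × V × V × V => ({t.1, t.2.1, t.2.2.1, t.2.2.2} : Finset V) = S).card
      = ∑ a : V, ∑ b : V, ∑ c : V, ∑ d : V, if ({a, b, c, d} : Finset V) = S then 1 else 0 := by
    rw [card_filter]
    simp only [Fintype.sum_prod_type]
  rw [← hcount]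
  have h24 : (univ : Finset (Equiv.Perm (Fin 4))).card = 24 := by
    rw [card_univ, Fintype.card_perm]
    rfl
  rw [← h24]
  refine card_le_card_of_injOn (fun s => (f (s 0), f (s 1), f (s 2), f (s 3))) ?_ ?_
  · intro s _
    simp only [mem_coe, mem_filter, mem_univ, true_and]
    exact himg s
  · intro s _ t _ hst
    simp only [Prod.mk.injEq] at hst
    obtain ⟨h0, h1, h2, h3⟩ := hst
    ext i
    fin_cases i
    · exact congrArg Fin.val (finj h0)
    · exact congrArg Fin.val (finj h1)
    · exact congrArg Fin.val (finj h2)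
    · exact congrArg Fin.val (finj h3)

theorem card_le_sum (H : Finset (Finset V)) (h4 : FourGraph H) : 24 * H.card ≤ S4 (ind H) := by
  calc 24 * H.card = ∑ S ∈ H, 24 := by rw [sum_const, smul_eq_mul, mul_comm]
    _ ≤ ∑ S ∈ H, ∑ a : V, ∑ b : V, ∑ c : V, ∑ d : V, (if ({a, b, c, d} : Finset V) = S then 1 else 0) :=
        sum_le_sum fun S hS => orderings S (h4 S hS)
    _ = ∑ a : V, ∑ b : V, ∑ c : V, ∑ d : V, ∑ S ∈ H, (if ({a, b, c, d} : Finset V) = S then 1 else 0) := by
        rw [Finset.sum_comm]
        refine sum_congr rfl fun a _ => ?_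
        rw [Finset.sum_comm]
        refine sum_congr rfl fun b _ => ?_
        rw [Finset.sum_comm]
        refine sum_congr rfl fun c _ => ?_
        rw [Finset.sum_comm]
    _ = _ := by
        refine sum_congr rfl fun a _ => sum_congr rfl fun b _ => sum_congr rfl fun c _ =>
          sum_congr rfl fun d _ => ?_
        rw [Finset.sum_ite_eq]
        rfl


/-- **the upper bound** -/
theorem upper (H : Finset (Finset V)) (h4 : FourGraph H) (hK : K5Free H) :
    96000 * H.card ≤ 2767 * Fintype.card V ^ 4 := by
  have h1 := main_ineq (ind_sy H) (ind_nk h4 hK)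
  have h2 := card_le_sum H h4
  omega

end

end Pool.Agent.H21.E
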