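import Pool.Agent.H21.E.Rc

/-! The vectors of the frames. -/

set_option autoImplicit false
set_option maxRecDepth 100000
set_option exponentiation.threshold 40000
set_option linter.unusedSimpArgs false
open Finset

namespace Pool.Agent.H21.E
open Pool.Agent.T2H33.K6

noncomputable section

variable {V : Type} {E : V → V → V → V → ℕ}

theorem rowg_ok : al 32 (fun t => st (fun t => Nat.beq (rw t 146) (asm 32 1023 10 (fun y => Nat.mul 14650479
    (bt (Nat.add y (Nat.mul 1024 t)) GV)))) t) = true := by decide +kernel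

attribute [local irreducible] FS rw K2 SG O10 enc fld GV

theorem bt1023 : ∀ k < 10, bt k 1023 ≠ 0 := by decide

theorem bt_lt_two (k x : ℕ) : bt k x < 2 := by rcases bt01 k x with h | h <;> omega

theorem rowg {t : ℕ} (ht : t < 32) : rw t 146 = enc 32 10 (fun y => 14650479 * bt (y + 1024 * t) GV) := by
  have h := al_true rowg_ok ht
  rw [st_eq] at h
  have h' := Nat.eq_of_beq_eq_true h
  rw [h', asm_eq _ _ _ _ fun k hk h0 => absurd h0 (bt1023 k hk)]
  rfl

theorem rowg_lt (t y : ℕ) : 14650479 * bt (y + 1024 * t) GV ≤ 14650479 := by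
  have := bt_lt_two (y + 1024 * t) GV
  omega

theorem fld_rowg {t y : ℕ} (ht : t < 32) (hy : y < 1024) : fld 32 (rw t 146) y = 14650479 * bt (y + 1024 * t) GV := by
  rw [rowg ht, fld_enc (by norm_num) (fun i _ => lt_of_le_of_lt (rowg_lt t i) (by norm_num)) (by norm_num; omega)]

theorem gP_eq {l : ℕ} (hl : l < 2 ^ 15) : gP l = 14650479 * bt l GV := by
  unfold gP
  rw [fld_rowg (Nat.div_lt_of_lt_mul hl) (Nat.mod_lt _ (by norm_num)), Nat.mod_add_div]

theorem gP_le {l : ℕ} (hl : l < 2 ^ 15) : gP l ≤ 14650479 := by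
  rw [gP_eq hl]
  have := bt_lt_two l GV
  omega

theorem Yv_rc (hE : Sy E) {m : ℕ} (hm : m < 2 ^ 15) : Rc E 10 id 191974551 (Yv m) m (YY E) := by
  have ht : m / 1024 < 32 := Nat.div_lt_of_lt_mul hm
  refine ⟨fun j => FS 1 (m % 1024) (fun k => fld 32 (rw (m / 1024) k) j) + 14650479 * bt (j + 1024 * (m / 1024)) GV, ?_, ?_, ?_⟩
  · unfold Yv
    rw [st_eq, st_eq, st_eq]
    have h1 : FS O10 (m % 1024) (fun k => rw (m / 1024) k) = enc 32 10 (fun j => FS 1 (m % 1024) (fun k => fld 32 (rw (m / 1024) k) j)) := by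
      rw [O10_eq]
      exact FS_enc 10 _ _ (fun k j => fld 32 (rw (m / 1024) k) j) (fun k hk => (enc_fld (by norm_num) (row_lt ht hk).1).symm)
        (fun k hk j hj => (row_lt ht hk).2 j hj)
    have h2 := rowg ht
    show Nat.add (FS O10 (m % 1024) (fun k => rw (m / 1024) k)) (rw (m / 1024) 146) = _
    rw [h1, h2]
    exact enc_add _ _ _ _
  · intro j hj
    have h1 := FS_bd (x := m % 1024) ht (y := j) hj
    have h2 := rowg_lt (m / 1024) j
    show FS 1 (m % 1024) (fun k => fld 32 (rw (m / 1024) k) j) + 14650479 * bt (j + 1024 * (m / 1024)) GV ≤ _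
    omega
  · intro a b c d e f z hk
    have h1 : ∀ k, lb E a b c d e f z k < 2 := lb_lt hE a b c d e f z
    have h2 : ∀ k, kb E a b c d e z k < 2 := kb_lt hE a b c d e z
    have h3 : ∀ k, kb E a b c d e f k < 2 := kb_lt hE a b c d e f
    have t1 : kk E a b c d e z % 1024 = pk 10 (fun k => lb E a b c d e f z (id k)) := by
      rw [show kk E a b c d e z % 1024 = pk 10 (kb E a b c d e z) from pk_mod (n := 10) (m := 5) fun k _ => h2 k]
      refine pk_congr fun k hk => ?_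
      interval_cases k <;> rfl
    have t2 : kk E a b c d e z / 1024 = m / 1024 := by
      rw [← hk, show kk E a b c d e z / 1024 = pk 5 (fun k => kb E a b c d e z (10 + k)) from pk_div (n := 10) (m := 5) fun k _ => h2 k,
        show kk E a b c d e f / 1024 = pk 5 (fun k => kb E a b c d e f (10 + k)) from pk_div (n := 10) (m := 5) fun k _ => h3 k]
      refine pk_congr fun k hk => ?_
      interval_cases k <;> rfl
    show FS 1 (m % 1024) (fun k => fld 32 (rw (m / 1024) k) (pk 10 (fun k => lb E a b c d e f z (id k)))) +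
      14650479 * bt (pk 10 (fun k => lb E a b c d e f z (id k)) + 1024 * (m / 1024)) GV =
      pv (kk E a b c d e f) (kk E a b c d e z) + gP (kk E a b c d e z)
    rw [gP_eq (kk_lt hE a b c d e z), ← t1, hk]
    unfold pv
    have t3 : kk E a b c d e z % 1024 + 1024 * (m / 1024) = kk E a b c d e z := by
      rw [← t2]
      exact Nat.mod_add_div _ _
    rw [t3]

theorem XY_rc (hE : Sy E) {m : ℕ} (hm : m < 2 ^ 15) : Rc E 16 id 369298623 (XY m) m (fun a b c d e f z => TT E a b c d e f z + YY E a b c d e f z) := by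
  have h := Yv_rc hE hm
  have h := h.dd hE 10
  have h := h.dd hE 11
  have h := h.dd hE 12
  have h := h.dd hE 13
  have h := h.dd hE 14
  have h := h.dd hE 15
  have h' : Rc E 16 id 191974551 _ m (YY E) := h.congr (by decide +kernel)
  exact (XM_rc hE hm).add h'

theorem Rc.perm {n B X m m' : ℕ} {pos' : ℕ → ℕ} {φ ψ : V → V → V → V → V → V → V → ℕ} (h : Rc E n id B X m' φ)
    (H : ∀ a b c d e f z : V, kk E a b c d e f = m → ∃ a' b' c' d' e' f' : V, kk E a' b' c' d' e' f' = m' ∧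
      (∀ k < n, lb E a' b' c' d' e' f' z k = lb E a b c d e f z (pos' k)) ∧ φ a' b' c' d' e' f' z = ψ a b c d e f z) :
    Rc E n pos' B X m ψ := by
  obtain ⟨F, hX, hF, hφ⟩ := h
  refine ⟨F, hX, hF, fun a b c d e f z hk => ?_⟩
  obtain ⟨a', b', c', d', e', f', h1, h2, h3⟩ := H a b c d e f z hk
  rw [← h3, ← hφ a' b' c' d' e' f' z h1]
  congr 1
  exact pk_congr fun k hk => (h2 k hk).symm

theorem MF_eq {j N : ℕ} (h : 16 = N + (j + 1)) : MF j = enc (32 * 2 ^ j * 2 ^ 1) N (fun _ => 2 ^ (32 * 2 ^ j) - 1) := by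
  have e : MF j = (2 ^ (32 * 2 ^ j) - 1) * one (32 * 2 ^ j * 2) (15 - j) := rfl
  rw [e, one_eq, show 15 - j = N by omega, mul_comm, enc_mulc]
  show enc (32 * 2 ^ j * 2) N _ = enc (32 * 2 ^ j * 2 ^ 1) N _
  rw [pow_one]
  exact enc_congr fun _ _ => by rw [one_mul]

theorem ins_lt {n p w i : ℕ} (hp : p < n) (hw : w < 2) (hi : i < 2 ^ n) : ins p w i < 2 ^ n := by
  obtain ⟨N, rfl⟩ : ∃ N, n = (p + 1) + N := ⟨n - (p + 1), by omega⟩
  unfold ins
  have h1 : i / 2 ^ (p + 1) < 2 ^ N := Nat.div_lt_of_lt_mul (by rwa [← pow_add])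
  have h2 : i % 2 ^ p < 2 ^ p := Nat.mod_lt _ (by positivity)
  have h3 : w * 2 ^ p + i % 2 ^ p < 2 ^ (p + 1) := by
    rw [pow_succ]
    interval_cases w <;> omega
  calc 2 ^ (p + 1) * (i / 2 ^ (p + 1)) + (w * 2 ^ p + i % 2 ^ p) < 2 ^ (p + 1) * (i / 2 ^ (p + 1)) + 2 ^ (p + 1) := Nat.add_lt_add_left h3 _
    _ = 2 ^ (p + 1) * (i / 2 ^ (p + 1) + 1) := by ring
    _ ≤ 2 ^ (p + 1) * 2 ^ N := Nat.mul_le_mul_left _ h1
    _ = _ := by rw [← pow_add]

/-- as `Rc`, for the links whose last four bits are given by `w` -/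
def Rd (E : V → V → V → V → ℕ) (w pos : ℕ → ℕ) (B X m : ℕ) (φ : V → V → V → V → V → V → V → ℕ) : Prop :=
  ∃ F : ℕ → ℕ, X = enc 32 16 F ∧ (∀ i < 2 ^ 16, F i ≤ B) ∧ ∀ a b c d e f z, kk E a b c d e f = m →
    (∀ k < 4, lb E a b c d e f z (16 + k) = w k) → F (pk 16 (fun k => lb E a b c d e f z (pos k))) = φ a b c d e f z

theorem Rc.rd {B X m : ℕ} {pos : ℕ → ℕ} {φ : V → V → V → V → V → V → V → ℕ} (h : Rc E 16 pos B X m φ) (w : ℕ → ℕ) :
    Rd E w pos B X m φ := by
  obtain ⟨F, hX, hF, hφ⟩ := h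
  exact ⟨F, hX, hF, fun a b c d e f z hk _ => hφ a b c d e f z hk⟩

theorem Rd.congr {B X m : ℕ} {w pos pos' : ℕ → ℕ} {φ : V → V → V → V → V → V → V → ℕ}
    (h : Rd E w pos B X m φ) (hp : ∀ k < 16, pos k = pos' k) : Rd E w pos' B X m φ := by
  obtain ⟨F, hX, hF, hφ⟩ := h
  refine ⟨F, hX, hF, fun a b c d e f z hm hw => ?_⟩
  rw [← hφ a b c d e f z hm hw]
  congr 1
  exact pk_congr fun k hk => by rw [hp k hk]

theorem Rd.add {B C X Y m : ℕ} {w pos : ℕ → ℕ} {φ ψ : V → V → V → V → V → V → V → ℕ}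
    (h : Rd E w pos B X m φ) (k : Rd E w pos C Y m ψ) :
    Rd E w pos (B + C) (Nat.add X Y) m (fun a b c d e f z => φ a b c d e f z + ψ a b c d e f z) := by
  obtain ⟨F, hX, hF, hφ⟩ := h
  obtain ⟨G, hY, hG, hψ⟩ := k
  refine ⟨fun i => F i + G i, ?_, fun i hi => Nat.add_le_add (hF i hi) (hG i hi), ?_⟩
  · rw [hX, hY]; exact enc_add _ _ _ _
  intro a b c d e f z hm hw
  show F _ + G _ = _
  rw [hφ _ _ _ _ _ _ _ hm hw, hψ _ _ _ _ _ _ _ hm hw]

theorem FX_enc {j v N : ℕ} (h : 16 = N + (j + 1)) (hv : v < 2) {F : ℕ → ℕ} (hF : ∀ i < 2 ^ 16, F i < 2 ^ 32) :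
    FX j v (enc 32 16 F) = enc 32 16 (fun i => F (ins j v i)) := by
  have e : FX j v (enc 32 16 F) = d2 (32 * 2 ^ j) (Nat.land (Nat.shiftRight (enc 32 16 F) (32 * 2 ^ j * v)) (MF j)) := rfl
  rw [e, MF_eq h, h]
  exact fx_enc (by norm_num) hv (by rwa [← h])

theorem Rd.fx (hE : Sy E) {B X m : ℕ} {w pos : ℕ → ℕ} {φ : V → V → V → V → V → V → V → ℕ} (j t i : ℕ) (hj : j < 16) (hi : i < 4)
    (hpos : pos j = 16 + i) (hw : w i < 2) (hB : B < 2 ^ 32) (h : Rd E w pos B X m φ) :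
    Rd E w (fun k => if k = j then t else pos k) B (FX j (w i) X) m φ := by
  obtain ⟨F, hX, hF, hφ⟩ := h
  refine ⟨fun q => F (ins j (w i) q), ?_, fun q hq => hF _ (ins_lt hj hw hq), ?_⟩
  · rw [hX]
    exact FX_enc (N := 15 - j) (by omega) hw fun i hi => lt_of_le_of_lt (hF i hi) hB
  · intro a b c d e f z hm hw'
    show F (ins j (w i) (pk 16 _)) = _
    rw [ins_pk hj (fun k _ => lb_lt hE a b c d e f z _), ← hφ a b c d e f z hm hw']
    congr 1
    refine pk_congr fun k hk => ?_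
    by_cases hkj : k = j
    · subst hkj
      rw [if_pos rfl, hpos, hw' i hi]
    · rw [if_neg hkj, if_neg hkj]

attribute [local irreducible] XM XY Yv FX

def P0 : ℕ → ℕ
  | 0 => 0
  | 1 => 1
  | 2 => 2
  | 3 => 3
  | 4 => 4
  | 5 => 5
  | 6 => 6
  | 7 => 7
  | 8 => 8
  | 9 => 9
  | 10 => 10
  | 11 => 11
  | 12 => 12
  | 13 => 13
  | 14 => 14
  | 15 => 15
  | _ => 0
theorem lp0 (hE : Sy E) (a b c d e f z : V) : ∀ k < 16, lb E a b c d e f z k = lb E a b c d e f z (P0 k) := by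
  intro k hk
  interval_cases k <;> simp [lb, P0, hE.s1, hE.s2, hE.s3]
theorem fm0 (hE : Sy E) {m : ℕ} {a b c d e f : V} (hk : kk E a b c d e f = m) : kk E a b c d e f = FM0 m := hk
theorem fb0 (hE : Sy E) {m : ℕ} (hm : m < 2 ^ 15) : Rc E 16 P0 369298623 (XY (FM0 m)) m (fun a b c d e f z => TT E a b c d e f z + YY E a b c d e f z) :=
  (XY_rc hE (m := FM0 m) hm).perm fun a b c d e f z hk => ⟨a, b, c, d, e, f, fm0 hE hk, lp0 hE a b c d e f z, rfl⟩
theorem fa0 (hE : Sy E) {m : ℕ} (hm : m < 2 ^ 15) (w : ℕ → ℕ) (hw : ∀ i, w i < 2) : Rd E w id 369298623 (st (fun m => FC0 (w 0) (w 1) (w 2) (w 3) m) (FM0 m)) m (fun a b c d e f z => TT E a b c d e f z + YY E a b c d e f z) := by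
  have h := fb0 hE hm
  have h := h.rd w
  rw [st_eq]
  exact h.congr (by decide +kernel)

def P1 : ℕ → ℕ
  | 0 => 17
  | 1 => 18
  | 2 => 19
  | 3 => 3
  | 4 => 4
  | 5 => 5
  | 6 => 13
  | 7 => 14
  | 8 => 15
  | 9 => 9
  | 10 => 10
  | 11 => 11
  | 12 => 12
  | 13 => 6
  | 14 => 7
  | 15 => 8
  | _ => 0
theorem lp1 (hE : Sy E) (a b c d e f z : V) : ∀ k < 16, lb E f b c d e a z k = lb E a b c d e f z (P1 k) := by
  intro k hk
  interval_cases k <;> simp [lb, P1, hE.s1, hE.s2, hE.s3]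
theorem fm1 (hE : Sy E) {m : ℕ} {a b c d e f : V} (hk : kk E a b c d e f = m) : kk E f b c d e a = FM1 m := by
  rw [← hk]; unfold FM1; rw [pc05_kk hE]
theorem fb1 (hE : Sy E) {m : ℕ} (hm : m < 2 ^ 15) : Rc E 16 P1 369298623 (XY (FM1 m)) m (fun a b c d e f z => TT E f b c d e a z + YY E f b c d e a z) :=
  (XY_rc hE (m := FM1 m) (pc05_lt hm)).perm fun a b c d e f z hk => ⟨f, b, c, d, e, a, fm1 hE hk, lp1 hE a b c d e f z, rfl⟩
theorem fa1 (hE : Sy E) {m : ℕ} (hm : m < 2 ^ 15) (w : ℕ → ℕ) (hw : ∀ i, w i < 2) : Rd E w id 369298623 (st (fun m => FC1 (w 0) (w 1) (w 2) (w 3) m) (FM1 m)) m (fun a b c d e f z => TT E f b c d e a z + YY E f b c d e a z) := by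
  have h := fb1 hE hm
  have h := h.swp hE (p := 6) (q := 13) (by norm_num) (by norm_num) (by norm_num)
  have h := h.swp hE (p := 7) (q := 14) (by norm_num) (by norm_num) (by norm_num)
  have h := h.swp hE (p := 8) (q := 15) (by norm_num) (by norm_num) (by norm_num)
  have h := h.rd w
  have h := h.fx hE 2 2 3 (by norm_num) (by norm_num) (by decide +kernel) (hw _) (by norm_num)
  have h := h.fx hE 1 1 2 (by norm_num) (by norm_num) (by decide +kernel) (hw _) (by norm_num)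
  have h := h.fx hE 0 0 1 (by norm_num) (by norm_num) (by decide +kernel) (hw _) (by norm_num)
  rw [st_eq]
  exact h.congr (by decide +kernel)

def P2 : ℕ → ℕ
  | 0 => 16
  | 1 => 1
  | 2 => 2
  | 3 => 18
  | 4 => 19
  | 5 => 5
  | 6 => 11
  | 7 => 12
  | 8 => 8
  | 9 => 15
  | 10 => 10
  | 11 => 6
  | 12 => 7
  | 13 => 13
  | 14 => 14
  | 15 => 9
  | _ => 0
theorem lp2 (hE : Sy E) (a b c d e f z : V) : ∀ k < 16, lb E a f c d e b z k = lb E a b c d e f z (P2 k) := by
  intro k hk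
  interval_cases k <;> simp [lb, P2, hE.s1, hE.s2, hE.s3]
theorem fm2 (hE : Sy E) {m : ℕ} {a b c d e f : V} (hk : kk E a b c d e f = m) : kk E a f c d e b = FM2 m := by
  rw [← hk]; unfold FM2; rw [pc15_kk hE]
theorem fb2 (hE : Sy E) {m : ℕ} (hm : m < 2 ^ 15) : Rc E 16 P2 369298623 (XY (FM2 m)) m (fun a b c d e f z => TT E a f c d e b z + YY E a f c d e b z) :=
  (XY_rc hE (m := FM2 m) (pc15_lt hm)).perm fun a b c d e f z hk => ⟨a, f, c, d, e, b, fm2 hE hk, lp2 hE a b c d e f z, rfl⟩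
theorem fa2 (hE : Sy E) {m : ℕ} (hm : m < 2 ^ 15) (w : ℕ → ℕ) (hw : ∀ i, w i < 2) : Rd E w id 369298623 (st (fun m => FC2 (w 0) (w 1) (w 2) (w 3) m) (FM2 m)) m (fun a b c d e f z => TT E a f c d e b z + YY E a f c d e b z) := by
  have h := fb2 hE hm
  have h := h.swp hE (p := 6) (q := 11) (by norm_num) (by norm_num) (by norm_num)
  have h := h.swp hE (p := 7) (q := 12) (by norm_num) (by norm_num) (by norm_num)
  have h := h.swp hE (p := 9) (q := 15) (by norm_num) (by norm_num) (by norm_num)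
  have h := h.rd w
  have h := h.fx hE 4 4 3 (by norm_num) (by norm_num) (by decide +kernel) (hw _) (by norm_num)
  have h := h.fx hE 3 3 2 (by norm_num) (by norm_num) (by decide +kernel) (hw _) (by norm_num)
  have h := h.fx hE 0 0 0 (by norm_num) (by norm_num) (by decide +kernel) (hw _) (by norm_num)
  rw [st_eq]
  exact h.congr (by decide +kernel)

def P3 : ℕ → ℕ
  | 0 => 0
  | 1 => 16
  | 2 => 2
  | 3 => 17
  | 4 => 4
  | 5 => 19
  | 6 => 10
  | 7 => 7
  | 8 => 12
  | 9 => 14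
  | 10 => 6
  | 11 => 11
  | 12 => 8
  | 13 => 13
  | 14 => 9
  | 15 => 15
  | _ => 0
theorem lp3 (hE : Sy E) (a b c d e f z : V) : ∀ k < 16, lb E a b f d e c z k = lb E a b c d e f z (P3 k) := by
  intro k hk
  interval_cases k <;> simp [lb, P3, hE.s1, hE.s2, hE.s3]
theorem fm3 (hE : Sy E) {m : ℕ} {a b c d e f : V} (hk : kk E a b c d e f = m) : kk E a b f d e c = FM3 m := by
  rw [← hk]; unfold FM3; rw [pc25_kk hE]
theorem fb3 (hE : Sy E) {m : ℕ} (hm : m < 2 ^ 15) : Rc E 16 P3 369298623 (XY (FM3 m)) m (fun a b c d e f z => TT E a b f d e c z + YY E a b f d e c z) :=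
  (XY_rc hE (m := FM3 m) (pc25_lt hm)).perm fun a b c d e f z hk => ⟨a, b, f, d, e, c, fm3 hE hk, lp3 hE a b c d e f z, rfl⟩
theorem fa3 (hE : Sy E) {m : ℕ} (hm : m < 2 ^ 15) (w : ℕ → ℕ) (hw : ∀ i, w i < 2) : Rd E w id 369298623 (st (fun m => FC3 (w 0) (w 1) (w 2) (w 3) m) (FM3 m)) m (fun a b c d e f z => TT E a b f d e c z + YY E a b f d e c z) := by
  have h := fb3 hE hm
  have h := h.swp hE (p := 6) (q := 10) (by norm_num) (by norm_num) (by norm_num)
  have h := h.swp hE (p := 8) (q := 12) (by norm_num) (by norm_num) (by norm_num)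
  have h := h.swp hE (p := 9) (q := 14) (by norm_num) (by norm_num) (by norm_num)
  have h := h.rd w
  have h := h.fx hE 5 5 3 (by norm_num) (by norm_num) (by decide +kernel) (hw _) (by norm_num)
  have h := h.fx hE 3 3 1 (by norm_num) (by norm_num) (by decide +kernel) (hw _) (by norm_num)
  have h := h.fx hE 1 1 0 (by norm_num) (by norm_num) (by decide +kernel) (hw _) (by norm_num)
  rw [st_eq]
  exact h.congr (by decide +kernel)

def P4 : ℕ → ℕ
  | 0 => 7
  | 1 => 8
  | 2 => 12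
  | 3 => 9
  | 4 => 14
  | 5 => 15
  | 6 => 6
  | 7 => 10
  | 8 => 11
  | 9 => 13
  | 10 => 0
  | 11 => 1
  | 12 => 16
  | 13 => 3
  | 14 => 17
  | 15 => 18
  | _ => 0
theorem lp4 (hE : Sy E) (a b c d e f z : V) : ∀ k < 16, lb E a b c f d e z k = lb E a b c d e f z (P4 k) := by
  intro k hk
  interval_cases k <;> simp [lb, P4, hE.s1, hE.s2, hE.s3]
theorem fm4 (hE : Sy E) {m : ℕ} {a b c d e f : V} (hk : kk E a b c d e f = m) : kk E a b c f d e = FM4 m := by
  rw [← hk]; unfold FM4; rw [pc35_kk hE, pc45_kk hE]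
theorem fb4 (hE : Sy E) {m : ℕ} (hm : m < 2 ^ 15) : Rc E 16 P4 369298623 (XY (FM4 m)) m (fun a b c d e f z => TT E a b c f d e z + YY E a b c f d e z) :=
  (XY_rc hE (m := FM4 m) (pc45_lt (pc35_lt hm))).perm fun a b c d e f z hk => ⟨a, b, c, f, d, e, fm4 hE hk, lp4 hE a b c d e f z, rfl⟩
theorem fa4 (hE : Sy E) {m : ℕ} (hm : m < 2 ^ 15) (w : ℕ → ℕ) (hw : ∀ i, w i < 2) : Rd E w id 369298623 (st (fun m => FC4 (w 0) (w 1) (w 2) (w 3) m) (FM4 m)) m (fun a b c d e f z => TT E a b c f d e z + YY E a b c f d e z) := by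
  have h := fb4 hE hm
  have h := h.swp hE (p := 0) (q := 10) (by norm_num) (by norm_num) (by norm_num)
  have h := h.swp hE (p := 1) (q := 11) (by norm_num) (by norm_num) (by norm_num)
  have h := h.swp hE (p := 3) (q := 13) (by norm_num) (by norm_num) (by norm_num)
  have h := h.swp hE (p := 7) (q := 10) (by norm_num) (by norm_num) (by norm_num)
  have h := h.swp hE (p := 8) (q := 11) (by norm_num) (by norm_num) (by norm_num)
  have h := h.swp hE (p := 9) (q := 13) (by norm_num) (by norm_num) (by norm_num)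
  have h := h.swp hE (p := 2) (q := 12) (by norm_num) (by norm_num) (by norm_num)
  have h := h.swp hE (p := 4) (q := 14) (by norm_num) (by norm_num) (by norm_num)
  have h := h.swp hE (p := 5) (q := 15) (by norm_num) (by norm_num) (by norm_num)
  have h := h.rd w
  have h := h.fx hE 5 5 2 (by norm_num) (by norm_num) (by decide +kernel) (hw _) (by norm_num)
  have h := h.fx hE 4 4 1 (by norm_num) (by norm_num) (by decide +kernel) (hw _) (by norm_num)
  have h := h.fx hE 2 2 0 (by norm_num) (by norm_num) (by decide +kernel) (hw _) (by norm_num)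
  rw [st_eq]
  exact h.congr (by decide +kernel)

def P5 : ℕ → ℕ
  | 0 => 6
  | 1 => 1
  | 2 => 11
  | 3 => 3
  | 4 => 13
  | 5 => 18
  | 6 => 0
  | 7 => 10
  | 8 => 16
  | 9 => 17
  | 10 => 7
  | 11 => 2
  | 12 => 12
  | 13 => 4
  | 14 => 14
  | 15 => 19
  | _ => 0
theorem lp5 (hE : Sy E) (a b c d e f z : V) : ∀ k < 16, lb E a b e f c d z k = lb E a b c d e f z (P5 k) := by
  intro k hk
  interval_cases k <;> simp [lb, P5, hE.s1, hE.s2, hE.s3]
theorem fm5 (hE : Sy E) {m : ℕ} {a b c d e f : V} (hk : kk E a b c d e f = m) : kk E a b e f c d = FM5 m := by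
  rw [← hk]; unfold FM5; rw [pc24_kk hE, pc35_kk hE]
theorem fb5 (hE : Sy E) {m : ℕ} (hm : m < 2 ^ 15) : Rc E 16 P5 369298623 (XY (FM5 m)) m (fun a b c d e f z => TT E a b e f c d z + YY E a b e f c d z) :=
  (XY_rc hE (m := FM5 m) (pc35_lt (pc24_lt hm))).perm fun a b c d e f z hk => ⟨a, b, e, f, c, d, fm5 hE hk, lp5 hE a b c d e f z, rfl⟩
theorem fa5 (hE : Sy E) {m : ℕ} (hm : m < 2 ^ 15) (w : ℕ → ℕ) (hw : ∀ i, w i < 2) : Rd E w id 369298623 (st (fun m => FC5 (w 0) (w 1) (w 2) (w 3) m) (FM5 m)) m (fun a b c d e f z => TT E a b e f c d z + YY E a b e f c d z) := by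
  have h := fb5 hE hm
  have h := h.swp hE (p := 0) (q := 6) (by norm_num) (by norm_num) (by norm_num)
  have h := h.swp hE (p := 2) (q := 11) (by norm_num) (by norm_num) (by norm_num)
  have h := h.swp hE (p := 4) (q := 13) (by norm_num) (by norm_num) (by norm_num)
  have h := h.swp hE (p := 7) (q := 10) (by norm_num) (by norm_num) (by norm_num)
  have h := h.rd w
  have h := h.fx hE 15 15 3 (by norm_num) (by norm_num) (by decide +kernel) (hw _) (by norm_num)
  have h := h.fx hE 5 5 2 (by norm_num) (by norm_num) (by decide +kernel) (hw _) (by norm_num)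
  have h := h.fx hE 9 9 1 (by norm_num) (by norm_num) (by decide +kernel) (hw _) (by norm_num)
  have h := h.fx hE 8 8 0 (by norm_num) (by norm_num) (by decide +kernel) (hw _) (by norm_num)
  rw [st_eq]
  exact h.congr (by decide +kernel)

def P6 : ℕ → ℕ
  | 0 => 0
  | 1 => 1
  | 2 => 2
  | 3 => 6
  | 4 => 7
  | 5 => 8
  | 6 => 3
  | 7 => 4
  | 8 => 5
  | 9 => 9
  | 10 => 17
  | 11 => 18
  | 12 => 19
  | 13 => 13
  | 14 => 14
  | 15 => 15
  | _ => 0
theorem lp6 (hE : Sy E) (a b c d e f z : V) : ∀ k < 16, lb E e b c d a f z k = lb E a b c d e f z (P6 k) := by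
  intro k hk
  interval_cases k <;> simp [lb, P6, hE.s1, hE.s2, hE.s3]
theorem fm6 (hE : Sy E) {m : ℕ} {a b c d e f : V} (hk : kk E a b c d e f = m) : kk E e b c d a f = FM6 m := by
  rw [← hk]; unfold FM6; rw [pc04_kk hE]
theorem fb6 (hE : Sy E) {m : ℕ} (hm : m < 2 ^ 15) : Rc E 16 P6 177324072 (XM (FM6 m)) m (fun a b c d e f z => TT E e b c d a f z) :=
  (XM_rc hE (m := FM6 m) (pc04_lt hm)).perm fun a b c d e f z hk => ⟨e, b, c, d, a, f, fm6 hE hk, lp6 hE a b c d e f z, rfl⟩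
theorem fa6 (hE : Sy E) {m : ℕ} (hm : m < 2 ^ 15) (w : ℕ → ℕ) (hw : ∀ i, w i < 2) : Rd E w id 177324072 (st (fun m => FC6 (w 0) (w 1) (w 2) (w 3) m) (FM6 m)) m (fun a b c d e f z => TT E e b c d a f z) := by
  have h := fb6 hE hm
  have h := h.swp hE (p := 3) (q := 6) (by norm_num) (by norm_num) (by norm_num)
  have h := h.swp hE (p := 4) (q := 7) (by norm_num) (by norm_num) (by norm_num)
  have h := h.swp hE (p := 5) (q := 8) (by norm_num) (by norm_num) (by norm_num)
  have h := h.rd w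
  have h := h.fx hE 12 12 3 (by norm_num) (by norm_num) (by decide +kernel) (hw _) (by norm_num)
  have h := h.fx hE 11 11 2 (by norm_num) (by norm_num) (by decide +kernel) (hw _) (by norm_num)
  have h := h.fx hE 10 10 1 (by norm_num) (by norm_num) (by decide +kernel) (hw _) (by norm_num)
  rw [st_eq]
  exact h.congr (by decide +kernel)

def P7 : ℕ → ℕ
  | 0 => 0
  | 1 => 6
  | 2 => 7
  | 3 => 3
  | 4 => 4
  | 5 => 9
  | 6 => 1
  | 7 => 2
  | 8 => 8
  | 9 => 5
  | 10 => 16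
  | 11 => 11
  | 12 => 12
  | 13 => 18
  | 14 => 19
  | 15 => 15
  | _ => 0
theorem lp7 (hE : Sy E) (a b c d e f z : V) : ∀ k < 16, lb E a e c d b f z k = lb E a b c d e f z (P7 k) := by
  intro k hk
  interval_cases k <;> simp [lb, P7, hE.s1, hE.s2, hE.s3]
theorem fm7 (hE : Sy E) {m : ℕ} {a b c d e f : V} (hk : kk E a b c d e f = m) : kk E a e c d b f = FM7 m := by
  rw [← hk]; unfold FM7; rw [pc14_kk hE]
theorem fb7 (hE : Sy E) {m : ℕ} (hm : m < 2 ^ 15) : Rc E 16 P7 177324072 (XM (FM7 m)) m (fun a b c d e f z => TT E a e c d b f z) :=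
  (XM_rc hE (m := FM7 m) (pc14_lt hm)).perm fun a b c d e f z hk => ⟨a, e, c, d, b, f, fm7 hE hk, lp7 hE a b c d e f z, rfl⟩
theorem fa7 (hE : Sy E) {m : ℕ} (hm : m < 2 ^ 15) (w : ℕ → ℕ) (hw : ∀ i, w i < 2) : Rd E w id 177324072 (st (fun m => FC7 (w 0) (w 1) (w 2) (w 3) m) (FM7 m)) m (fun a b c d e f z => TT E a e c d b f z) := by
  have h := fb7 hE hm
  have h := h.swp hE (p := 1) (q := 6) (by norm_num) (by norm_num) (by norm_num)
  have h := h.swp hE (p := 2) (q := 7) (by norm_num) (by norm_num) (by norm_num)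
  have h := h.swp hE (p := 5) (q := 9) (by norm_num) (by norm_num) (by norm_num)
  have h := h.rd w
  have h := h.fx hE 14 14 3 (by norm_num) (by norm_num) (by decide +kernel) (hw _) (by norm_num)
  have h := h.fx hE 13 13 2 (by norm_num) (by norm_num) (by decide +kernel) (hw _) (by norm_num)
  have h := h.fx hE 10 10 0 (by norm_num) (by norm_num) (by decide +kernel) (hw _) (by norm_num)
  rw [st_eq]
  exact h.congr (by decide +kernel)

def P8 : ℕ → ℕ
  | 0 => 6
  | 1 => 1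
  | 2 => 8
  | 3 => 3
  | 4 => 9
  | 5 => 5
  | 6 => 0
  | 7 => 7
  | 8 => 2
  | 9 => 4
  | 10 => 10
  | 11 => 16
  | 12 => 12
  | 13 => 17
  | 14 => 14
  | 15 => 19
  | _ => 0
theorem lp8 (hE : Sy E) (a b c d e f z : V) : ∀ k < 16, lb E a b e d c f z k = lb E a b c d e f z (P8 k) := by
  intro k hk
  interval_cases k <;> simp [lb, P8, hE.s1, hE.s2, hE.s3]
theorem fm8 (hE : Sy E) {m : ℕ} {a b c d e f : V} (hk : kk E a b c d e f = m) : kk E a b e d c f = FM8 m := by
  rw [← hk]; unfold FM8; rw [pc24_kk hE]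
theorem fb8 (hE : Sy E) {m : ℕ} (hm : m < 2 ^ 15) : Rc E 16 P8 177324072 (XM (FM8 m)) m (fun a b c d e f z => TT E a b e d c f z) :=
  (XM_rc hE (m := FM8 m) (pc24_lt hm)).perm fun a b c d e f z hk => ⟨a, b, e, d, c, f, fm8 hE hk, lp8 hE a b c d e f z, rfl⟩
theorem fa8 (hE : Sy E) {m : ℕ} (hm : m < 2 ^ 15) (w : ℕ → ℕ) (hw : ∀ i, w i < 2) : Rd E w id 177324072 (st (fun m => FC8 (w 0) (w 1) (w 2) (w 3) m) (FM8 m)) m (fun a b c d e f z => TT E a b e d c f z) := by
  have h := fb8 hE hm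
  have h := h.swp hE (p := 0) (q := 6) (by norm_num) (by norm_num) (by norm_num)
  have h := h.swp hE (p := 2) (q := 8) (by norm_num) (by norm_num) (by norm_num)
  have h := h.swp hE (p := 4) (q := 9) (by norm_num) (by norm_num) (by norm_num)
  have h := h.rd w
  have h := h.fx hE 15 15 3 (by norm_num) (by norm_num) (by decide +kernel) (hw _) (by norm_num)
  have h := h.fx hE 13 13 1 (by norm_num) (by norm_num) (by decide +kernel) (hw _) (by norm_num)
  have h := h.fx hE 11 11 0 (by norm_num) (by norm_num) (by decide +kernel) (hw _) (by norm_num)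
  rw [st_eq]
  exact h.congr (by decide +kernel)

def P9 : ℕ → ℕ
  | 0 => 7
  | 1 => 8
  | 2 => 2
  | 3 => 9
  | 4 => 4
  | 5 => 5
  | 6 => 6
  | 7 => 0
  | 8 => 1
  | 9 => 3
  | 10 => 10
  | 11 => 11
  | 12 => 16
  | 13 => 13
  | 14 => 17
  | 15 => 18
  | _ => 0
theorem lp9 (hE : Sy E) (a b c d e f z : V) : ∀ k < 16, lb E a b c e d f z k = lb E a b c d e f z (P9 k) := by
  intro k hk
  interval_cases k <;> simp [lb, P9, hE.s1, hE.s2, hE.s3]
theorem fm9 (hE : Sy E) {m : ℕ} {a b c d e f : V} (hk : kk E a b c d e f = m) : kk E a b c e d f = FM9 m := by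
  rw [← hk]; unfold FM9; rw [pc34_kk hE]
theorem fb9 (hE : Sy E) {m : ℕ} (hm : m < 2 ^ 15) : Rc E 16 P9 177324072 (XM (FM9 m)) m (fun a b c d e f z => TT E a b c e d f z) :=
  (XM_rc hE (m := FM9 m) (pc34_lt hm)).perm fun a b c d e f z hk => ⟨a, b, c, e, d, f, fm9 hE hk, lp9 hE a b c d e f z, rfl⟩
theorem fa9 (hE : Sy E) {m : ℕ} (hm : m < 2 ^ 15) (w : ℕ → ℕ) (hw : ∀ i, w i < 2) : Rd E w id 177324072 (st (fun m => FC9 (w 0) (w 1) (w 2) (w 3) m) (FM9 m)) m (fun a b c d e f z => TT E a b c e d f z) := by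
  have h := fb9 hE hm
  have h := h.swp hE (p := 0) (q := 7) (by norm_num) (by norm_num) (by norm_num)
  have h := h.swp hE (p := 1) (q := 8) (by norm_num) (by norm_num) (by norm_num)
  have h := h.swp hE (p := 3) (q := 9) (by norm_num) (by norm_num) (by norm_num)
  have h := h.rd w
  have h := h.fx hE 15 15 2 (by norm_num) (by norm_num) (by decide +kernel) (hw _) (by norm_num)
  have h := h.fx hE 14 14 1 (by norm_num) (by norm_num) (by decide +kernel) (hw _) (by norm_num)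
  have h := h.fx hE 12 12 0 (by norm_num) (by norm_num) (by decide +kernel) (hw _) (by norm_num)
  rw [st_eq]
  exact h.congr (by decide +kernel)

def P10 : ℕ → ℕ
  | 0 => 16
  | 1 => 1
  | 2 => 2
  | 3 => 11
  | 4 => 12
  | 5 => 8
  | 6 => 18
  | 7 => 19
  | 8 => 5
  | 9 => 15
  | 10 => 17
  | 11 => 3
  | 12 => 4
  | 13 => 13
  | 14 => 14
  | 15 => 9
  | _ => 0
theorem lp10 (hE : Sy E) (a b c d e f z : V) : ∀ k < 16, lb E e f c d a b z k = lb E a b c d e f z (P10 k) := by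
  intro k hk
  interval_cases k <;> simp [lb, P10, hE.s1, hE.s2, hE.s3]
theorem fm10 (hE : Sy E) {m : ℕ} {a b c d e f : V} (hk : kk E a b c d e f = m) : kk E e f c d a b = FM10 m := by
  rw [← hk]; unfold FM10; rw [pc04_kk hE, pc15_kk hE]
theorem fb10 (hE : Sy E) {m : ℕ} (hm : m < 2 ^ 15) : Rc E 16 P10 177324072 (XM (FM10 m)) m (fun a b c d e f z => TT E e f c d a b z) :=
  (XM_rc hE (m := FM10 m) (pc15_lt (pc04_lt hm))).perm fun a b c d e f z hk => ⟨e, f, c, d, a, b, fm10 hE hk, lp10 hE a b c d e f z, rfl⟩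
theorem fa10 (hE : Sy E) {m : ℕ} (hm : m < 2 ^ 15) (w : ℕ → ℕ) (hw : ∀ i, w i < 2) : Rd E w id 177324072 (st (fun m => FC10 (w 0) (w 1) (w 2) (w 3) m) (FM10 m)) m (fun a b c d e f z => TT E e f c d a b z) := by
  have h := fb10 hE hm
  have h := h.swp hE (p := 3) (q := 11) (by norm_num) (by norm_num) (by norm_num)
  have h := h.swp hE (p := 4) (q := 12) (by norm_num) (by norm_num) (by norm_num)
  have h := h.swp hE (p := 5) (q := 8) (by norm_num) (by norm_num) (by norm_num)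
  have h := h.swp hE (p := 9) (q := 15) (by norm_num) (by norm_num) (by norm_num)
  have h := h.rd w
  have h := h.fx hE 7 7 3 (by norm_num) (by norm_num) (by decide +kernel) (hw _) (by norm_num)
  have h := h.fx hE 6 6 2 (by norm_num) (by norm_num) (by decide +kernel) (hw _) (by norm_num)
  have h := h.fx hE 10 10 1 (by norm_num) (by norm_num) (by decide +kernel) (hw _) (by norm_num)
  have h := h.fx hE 0 0 0 (by norm_num) (by norm_num) (by decide +kernel) (hw _) (by norm_num)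
  rw [st_eq]
  exact h.congr (by decide +kernel)

def P11 : ℕ → ℕ
  | 0 => 0
  | 1 => 16
  | 2 => 2
  | 3 => 10
  | 4 => 7
  | 5 => 12
  | 6 => 17
  | 7 => 4
  | 8 => 19
  | 9 => 14
  | 10 => 3
  | 11 => 18
  | 12 => 5
  | 13 => 13
  | 14 => 9
  | 15 => 15
  | _ => 0
theorem lp11 (hE : Sy E) (a b c d e f z : V) : ∀ k < 16, lb E e b f d a c z k = lb E a b c d e f z (P11 k) := by
  intro k hk
  interval_cases k <;> simp [lb, P11, hE.s1, hE.s2, hE.s3]
theorem fm11 (hE : Sy E) {m : ℕ} {a b c d e f : V} (hk : kk E a b c d e f = m) : kk E e b f d a c = FM11 m := by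
  rw [← hk]; unfold FM11; rw [pc04_kk hE, pc25_kk hE]
theorem fb11 (hE : Sy E) {m : ℕ} (hm : m < 2 ^ 15) : Rc E 16 P11 177324072 (XM (FM11 m)) m (fun a b c d e f z => TT E e b f d a c z) :=
  (XM_rc hE (m := FM11 m) (pc25_lt (pc04_lt hm))).perm fun a b c d e f z hk => ⟨e, b, f, d, a, c, fm11 hE hk, lp11 hE a b c d e f z, rfl⟩
theorem fa11 (hE : Sy E) {m : ℕ} (hm : m < 2 ^ 15) (w : ℕ → ℕ) (hw : ∀ i, w i < 2) : Rd E w id 177324072 (st (fun m => FC11 (w 0) (w 1) (w 2) (w 3) m) (FM11 m)) m (fun a b c d e f z => TT E e b f d a c z) := by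
  have h := fb11 hE hm
  have h := h.swp hE (p := 3) (q := 10) (by norm_num) (by norm_num) (by norm_num)
  have h := h.swp hE (p := 4) (q := 7) (by norm_num) (by norm_num) (by norm_num)
  have h := h.swp hE (p := 5) (q := 12) (by norm_num) (by norm_num) (by norm_num)
  have h := h.swp hE (p := 9) (q := 14) (by norm_num) (by norm_num) (by norm_num)
  have h := h.rd w
  have h := h.fx hE 8 8 3 (by norm_num) (by norm_num) (by decide +kernel) (hw _) (by norm_num)
  have h := h.fx hE 11 11 2 (by norm_num) (by norm_num) (by decide +kernel) (hw _) (by norm_num)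
  have h := h.fx hE 6 6 1 (by norm_num) (by norm_num) (by decide +kernel) (hw _) (by norm_num)
  have h := h.fx hE 1 1 0 (by norm_num) (by norm_num) (by decide +kernel) (hw _) (by norm_num)
  rw [st_eq]
  exact h.congr (by decide +kernel)

def P12 : ℕ → ℕ
  | 0 => 0
  | 1 => 1
  | 2 => 16
  | 3 => 6
  | 4 => 10
  | 5 => 11
  | 6 => 3
  | 7 => 17
  | 8 => 18
  | 9 => 13
  | 10 => 4
  | 11 => 5
  | 12 => 19
  | 13 => 9
  | 14 => 14
  | 15 => 15
  | _ => 0
theorem lp12 (hE : Sy E) (a b c d e f z : V) : ∀ k < 16, lb E e b c f a d z k = lb E a b c d e f z (P12 k) := by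
  intro k hk
  interval_cases k <;> simp [lb, P12, hE.s1, hE.s2, hE.s3]
theorem fm12 (hE : Sy E) {m : ℕ} {a b c d e f : V} (hk : kk E a b c d e f = m) : kk E e b c f a d = FM12 m := by
  rw [← hk]; unfold FM12; rw [pc04_kk hE, pc35_kk hE]
theorem fb12 (hE : Sy E) {m : ℕ} (hm : m < 2 ^ 15) : Rc E 16 P12 177324072 (XM (FM12 m)) m (fun a b c d e f z => TT E e b c f a d z) :=
  (XM_rc hE (m := FM12 m) (pc35_lt (pc04_lt hm))).perm fun a b c d e f z hk => ⟨e, b, c, f, a, d, fm12 hE hk, lp12 hE a b c d e f z, rfl⟩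
theorem fa12 (hE : Sy E) {m : ℕ} (hm : m < 2 ^ 15) (w : ℕ → ℕ) (hw : ∀ i, w i < 2) : Rd E w id 177324072 (st (fun m => FC12 (w 0) (w 1) (w 2) (w 3) m) (FM12 m)) m (fun a b c d e f z => TT E e b c f a d z) := by
  have h := fb12 hE hm
  have h := h.swp hE (p := 3) (q := 6) (by norm_num) (by norm_num) (by norm_num)
  have h := h.swp hE (p := 4) (q := 10) (by norm_num) (by norm_num) (by norm_num)
  have h := h.swp hE (p := 5) (q := 11) (by norm_num) (by norm_num) (by norm_num)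
  have h := h.swp hE (p := 9) (q := 13) (by norm_num) (by norm_num) (by norm_num)
  have h := h.rd w
  have h := h.fx hE 12 12 3 (by norm_num) (by norm_num) (by decide +kernel) (hw _) (by norm_num)
  have h := h.fx hE 8 8 2 (by norm_num) (by norm_num) (by decide +kernel) (hw _) (by norm_num)
  have h := h.fx hE 7 7 1 (by norm_num) (by norm_num) (by decide +kernel) (hw _) (by norm_num)
  have h := h.fx hE 2 2 0 (by norm_num) (by norm_num) (by decide +kernel) (hw _) (by norm_num)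
  rw [st_eq]
  exact h.congr (by decide +kernel)

def P13 : ℕ → ℕ
  | 0 => 0
  | 1 => 10
  | 2 => 7
  | 3 => 17
  | 4 => 4
  | 5 => 14
  | 6 => 16
  | 7 => 2
  | 8 => 12
  | 9 => 19
  | 10 => 1
  | 11 => 11
  | 12 => 8
  | 13 => 18
  | 14 => 5
  | 15 => 15
  | _ => 0
theorem lp13 (hE : Sy E) (a b c d e f z : V) : ∀ k < 16, lb E a e f d b c z k = lb E a b c d e f z (P13 k) := by
  intro k hk
  interval_cases k <;> simp [lb, P13, hE.s1, hE.s2, hE.s3]
theorem fm13 (hE : Sy E) {m : ℕ} {a b c d e f : V} (hk : kk E a b c d e f = m) : kk E a e f d b c = FM13 m := by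
  rw [← hk]; unfold FM13; rw [pc14_kk hE, pc25_kk hE]
theorem fb13 (hE : Sy E) {m : ℕ} (hm : m < 2 ^ 15) : Rc E 16 P13 177324072 (XM (FM13 m)) m (fun a b c d e f z => TT E a e f d b c z) :=
  (XM_rc hE (m := FM13 m) (pc25_lt (pc14_lt hm))).perm fun a b c d e f z hk => ⟨a, e, f, d, b, c, fm13 hE hk, lp13 hE a b c d e f z, rfl⟩
theorem fa13 (hE : Sy E) {m : ℕ} (hm : m < 2 ^ 15) (w : ℕ → ℕ) (hw : ∀ i, w i < 2) : Rd E w id 177324072 (st (fun m => FC13 (w 0) (w 1) (w 2) (w 3) m) (FM13 m)) m (fun a b c d e f z => TT E a e f d b c z) := by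
  have h := fb13 hE hm
  have h := h.swp hE (p := 1) (q := 10) (by norm_num) (by norm_num) (by norm_num)
  have h := h.swp hE (p := 2) (q := 7) (by norm_num) (by norm_num) (by norm_num)
  have h := h.swp hE (p := 5) (q := 14) (by norm_num) (by norm_num) (by norm_num)
  have h := h.swp hE (p := 8) (q := 12) (by norm_num) (by norm_num) (by norm_num)
  have h := h.rd w
  have h := h.fx hE 9 9 3 (by norm_num) (by norm_num) (by decide +kernel) (hw _) (by norm_num)
  have h := h.fx hE 13 13 2 (by norm_num) (by norm_num) (by decide +kernel) (hw _) (by norm_num)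
  have h := h.fx hE 3 3 1 (by norm_num) (by norm_num) (by decide +kernel) (hw _) (by norm_num)
  have h := h.fx hE 6 6 0 (by norm_num) (by norm_num) (by decide +kernel) (hw _) (by norm_num)
  rw [st_eq]
  exact h.congr (by decide +kernel)

def P14 : ℕ → ℕ
  | 0 => 0
  | 1 => 6
  | 2 => 10
  | 3 => 3
  | 4 => 17
  | 5 => 13
  | 6 => 1
  | 7 => 16
  | 8 => 11
  | 9 => 18
  | 10 => 2
  | 11 => 8
  | 12 => 12
  | 13 => 5
  | 14 => 19
  | 15 => 15
  | _ => 0
theorem lp14 (hE : Sy E) (a b c d e f z : V) : ∀ k < 16, lb E a e c f b d z k = lb E a b c d e f z (P14 k) := by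
  intro k hk
  interval_cases k <;> simp [lb, P14, hE.s1, hE.s2, hE.s3]
theorem fm14 (hE : Sy E) {m : ℕ} {a b c d e f : V} (hk : kk E a b c d e f = m) : kk E a e c f b d = FM14 m := by
  rw [← hk]; unfold FM14; rw [pc14_kk hE, pc35_kk hE]
theorem fb14 (hE : Sy E) {m : ℕ} (hm : m < 2 ^ 15) : Rc E 16 P14 177324072 (XM (FM14 m)) m (fun a b c d e f z => TT E a e c f b d z) :=
  (XM_rc hE (m := FM14 m) (pc35_lt (pc14_lt hm))).perm fun a b c d e f z hk => ⟨a, e, c, f, b, d, fm14 hE hk, lp14 hE a b c d e f z, rfl⟩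
theorem fa14 (hE : Sy E) {m : ℕ} (hm : m < 2 ^ 15) (w : ℕ → ℕ) (hw : ∀ i, w i < 2) : Rd E w id 177324072 (st (fun m => FC14 (w 0) (w 1) (w 2) (w 3) m) (FM14 m)) m (fun a b c d e f z => TT E a e c f b d z) := by
  have h := fb14 hE hm
  have h := h.swp hE (p := 1) (q := 6) (by norm_num) (by norm_num) (by norm_num)
  have h := h.swp hE (p := 2) (q := 10) (by norm_num) (by norm_num) (by norm_num)
  have h := h.swp hE (p := 5) (q := 13) (by norm_num) (by norm_num) (by norm_num)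
  have h := h.swp hE (p := 8) (q := 11) (by norm_num) (by norm_num) (by norm_num)
  have h := h.rd w
  have h := h.fx hE 14 14 3 (by norm_num) (by norm_num) (by decide +kernel) (hw _) (by norm_num)
  have h := h.fx hE 9 9 2 (by norm_num) (by norm_num) (by decide +kernel) (hw _) (by norm_num)
  have h := h.fx hE 4 4 1 (by norm_num) (by norm_num) (by decide +kernel) (hw _) (by norm_num)
  have h := h.fx hE 7 7 0 (by norm_num) (by norm_num) (by decide +kernel) (hw _) (by norm_num)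
  rw [st_eq]
  exact h.congr (by decide +kernel)

/-- the sum over all the pairs of seven vertices -/
def W0 (E : V → V → V → V → ℕ) (a b c d e f z : V) : ℕ := (TT E a b c d e f z + YY E a b c d e f z) + ((TT E f b c d e a z + YY E f b c d e a z) + ((TT E a f c d e b z + YY E a f c d e b z) + ((TT E a b f d e c z + YY E a b f d e c z) + ((TT E a b c f d e z + YY E a b c f d e z) + ((TT E a b e f c d z + YY E a b e f c d z) + (TT E e b c d a f z + (TT E a e c d b f z + (TT E a b e d c f z + (TT E a b c e d f z + (TT E e f c d a b z + (TT E e b f d a c z + (TT E e b c f a d z + (TT E a e f d b c z + (TT E a e c f b d z))))))))))))))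

theorem rcw_rd (hE : Sy E) {m : ℕ} (hm : m < 2 ^ 15) (w : ℕ → ℕ) (hw : ∀ i, w i < 2) : Rd E w id 3811708386 (rcw (w 0) (w 1) (w 2) (w 3) m) m (W0 E) :=
  ((fa0 hE hm w hw).add ((fa1 hE hm w hw).add ((fa2 hE hm w hw).add ((fa3 hE hm w hw).add ((fa4 hE hm w hw).add ((fa5 hE hm w hw).add ((fa6 hE hm w hw).add ((fa7 hE hm w hw).add ((fa8 hE hm w hw).add ((fa9 hE hm w hw).add ((fa10 hE hm w hw).add ((fa11 hE hm w hw).add ((fa12 hE hm w hw).add ((fa13 hE hm w hw).add (fa14 hE hm w hw)))))))))))))))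

theorem chk_le (hE : Sy E) {m : ℕ} (hm : m < 2 ^ 15) (h : chk m = true) {a b c d e f z : V} (hk : kk E a b c d e f = m) :
    W0 E a b c d e f z + 14650479 * bt m GV ≤ 1988189973 := by
  have hw : ∀ i, (fun k => lb E a b c d e f z (16 + k)) i < 2 := fun i => lb_lt hE a b c d e f z _
  obtain ⟨F, hX, hF, hφ⟩ := rcw_rd hE hm (fun k => lb E a b c d e f z (16 + k)) hw
  have h0 := al_true (al_true (al_true (al_true h (hw 3)) (hw 2)) (hw 1)) (hw 0)
  have h1 : Nat.land (Nat.add (rcw (lb E a b c d e f z (16 + 0)) (lb E a b c d e f z (16 + 1)) (lb E a b c d e f z (16 + 2)) (lb E a b c d e f z (16 + 3)) m)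
    (Nat.mul (Nat.sub 2147483647 (Nat.sub 1988189973 (Nat.mul 14650479 (bt m GV)))) O16))
    (Nat.mul 2147483648 O16) = 0 := Nat.eq_of_beq_eq_true h0
  rw [hX, O16_eq, mul_one_enc, mul_one_enc] at h1
  have h2 := bt_lt_two m GV
  have h3 := enc_le (s := 31) (n := 16) (C := 1988189973 - 14650479 * bt m GV) (f := F) (by omega)
    (fun i hi => by have := hF i hi; omega) h1 (pk_lt fun k _ => lb_lt hE a b c d e f z (id k))
  rw [hφ a b c d e f z hk (fun k _ => rfl)] at h3
  omega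

end

end Pool.Agent.H21.E
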