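import Pool.Agent.H21.E.Ker
import Pool.Agent.H21.E.K00

/-! Kernel checks, part 4. -/

set_option autoImplicit false
set_option maxRecDepth 100000
set_option linter.defProp false

namespace Pool.Agent.H21.E

def c11 : chk 11 = true := by decide +kernel
def c117 : chk 117 = true := by decide +kernel
def c1108 : chk 1108 = true := by decide +kernel
def c1196 : chk 1196 = true := by decide +kernel
def c1459 : chk 1459 = true := by decide +kernel
def c3306 : chk 3306 = true := by decide +kernel
def c3582 : chk 3582 = true := by decide +kernel
def c7902 : chk 7902 = true := by decide +kernel

end Pool.Agent.H21.E
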