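import Pool.Agent.H21.E.Ker
import Pool.Agent.H21.E.K04

/-! Kernel checks, part 8. -/

set_option autoImplicit false
set_option maxRecDepth 100000
set_option linter.defProp false

namespace Pool.Agent.H21.E

def c30 : chk 30 = true := by decide +kernel
def c223 : chk 223 = true := by decide +kernel
def c1118 : chk 1118 = true := by decide +kernel
def c1214 : chk 1214 = true := by decide +kernel
def c1465 : chk 1465 = true := by decide +kernel
def c3326 : chk 3326 = true := by decide +kernel
def c3885 : chk 3885 = true := by decide +kernel
def c8185 : chk 8185 = true := by decide +kernel

end Pool.Agent.H21.E
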