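import Pool.Agent.H21.E.Fin

/-! The bound for the density. -/

set_option autoImplicit false
open Finset Filter Topology

namespace Pool.Agent.H21.E
open Pool.Agent.H3.Y (FourGraph K5Free ex)

theorem ex_le (n : ℕ) : 96000 * ex n ≤ 2767 * n ^ 4 := by
  classical
  have h : ex n ≤ 2767 * n ^ 4 / 96000 := by
    unfold ex
    refine Finset.sup_le fun H hH => ?_
    obtain ⟨-, h4, hK⟩ := mem_filter.mp hH
    have h := upper H h4 hK
    rw [Fintype.card_fin] at h
    rw [Nat.le_div_iff_mul_le (by norm_num)]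
    omega
  have := Nat.div_mul_le_self (2767 * n ^ 4) 96000
  omega

theorem lim_ratio : Tendsto (fun n : ℕ => (n : ℝ) ^ 4 / (n.choose 4 : ℝ)) atTop (𝓝 24) := by
  have h := isEquivalent_choose 4
  have h2 := h.symm
  have h3 : Tendsto (fun n : ℕ => ((n : ℝ) ^ 4 / (Nat.factorial 4 : ℝ)) / (n.choose 4 : ℝ)) atTop (𝓝 1) := by
    rw [Asymptotics.isEquivalent_iff_tendsto_one] at h2
    · exact h2
    · filter_upwards [eventually_ge_atTop 4] with n hn
      have : 0 < n.choose 4 := Nat.choose_pos hn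
      positivity
  have h4 := h3.const_mul 24
  simp only [mul_one] at h4
  refine h4.congr fun n => ?_
  have : ((Nat.factorial 4 : ℕ) : ℝ) = 24 := by norm_num [Nat.factorial]
  rw [this]
  ring

theorem bound_tendsto : Tendsto (fun n : ℕ => (2767 / 96000 : ℝ) * ((n : ℝ) ^ 4 / (n.choose 4 : ℝ))) atTop (𝓝 (2767 / 4000)) := by
  have h := lim_ratio.const_mul (2767 / 96000 : ℝ)
  have e : (2767 / 96000 : ℝ) * 24 = 2767 / 4000 := by norm_num
  rwa [e] at h

theorem ratio_le {n : ℕ} (hn : 4 ≤ n) : (ex n : ℝ) / (n.choose 4 : ℝ) ≤ (2767 / 96000 : ℝ) * ((n : ℝ) ^ 4 / (n.choose 4 : ℝ)) := by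
  have hpos : (0 : ℝ) < (n.choose 4 : ℝ) := by exact_mod_cast Nat.choose_pos hn
  rw [← mul_div_assoc]
  refine div_le_div_of_nonneg_right ?_ hpos.le
  have h : ((96000 * ex n : ℕ) : ℝ) ≤ ((2767 * n ^ 4 : ℕ) : ℝ) := by exact_mod_cast ex_le n
  push_cast at h
  linarith

/-- the density is at most `2767 / 4000` -/
theorem density_le (π : ℝ) (h : Tendsto (fun n : ℕ => (ex n : ℝ) / (n.choose 4 : ℝ)) atTop (𝓝 π)) : π ≤ 2767 / 4000 := by
  refine le_of_tendsto_of_tendsto h bound_tendsto ?_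
  filter_upwards [eventually_ge_atTop 4] with n hn
  exact ratio_le hn

end Pool.Agent.H21.E
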