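import Pool.Agent.H21.E.Ker
import Pool.Graph.R_pool_sql_team_seeded_707910d6.T2H33.K6.Fx

/-! Structures on six and seven vertices and exchanges of vertices (after `Pool.Agent.T2H33.K6`). -/

set_option autoImplicit false
set_option maxRecDepth 100000
set_option linter.unusedSimpArgs false
open Finset

namespace Pool.Agent.H21.E
open Pool.Agent.T2H33.K6

noncomputable section

variable {V : Type} {E : V → V → V → V → ℕ}

/-- symmetric indicator of quadruples -/
structure Sy (E : V → V → V → V → ℕ) : Prop where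
  s1 : ∀ a b c d, E b a c d = E a b c d
  s2 : ∀ a b c d, E a c b d = E a b c d
  s3 : ∀ a b c d, E a b d c = E a b c d
  lt : ∀ a b c d, E a b c d < 2

/-- the bits of a structure on six vertices -/
def kb (E : V → V → V → V → ℕ) (a b c d e f : V) : ℕ → ℕ
  | 0 => E a b e f
  | 1 => E a c e f
  | 2 => E a d e f
  | 3 => E b c e f
  | 4 => E b d e f
  | 5 => E c d e f
  | 6 => E a b c f
  | 7 => E a b d f
  | 8 => E a c d f
  | 9 => E b c d f
  | 10 => E a b c e
  | 11 => E a b d e
  | 12 => E a c d e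
  | 13 => E b c d e
  | 14 => E a b c d
  | _ => 0

/-- the code of a structure on six vertices -/
def kk (E : V → V → V → V → ℕ) (a b c d e f : V) : ℕ := pk 15 (kb E a b c d e f)

/-- the bits of the link of a seventh vertex -/
def lb (E : V → V → V → V → ℕ) (a b c d e f z : V) : ℕ → ℕ
  | 0 => E a b e z
  | 1 => E a c e z
  | 2 => E a d e z
  | 3 => E b c e z
  | 4 => E b d e z
  | 5 => E c d e z
  | 6 => E a b c z
  | 7 => E a b d z
  | 8 => E a c d z
  | 9 => E b c d z
  | 10 => E a b f z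
  | 11 => E a c f z
  | 12 => E a d f z
  | 13 => E b c f z
  | 14 => E b d f z
  | 15 => E c d f z
  | 16 => E a e f z
  | 17 => E b e f z
  | 18 => E c e f z
  | 19 => E d e f z
  | _ => 0

theorem kb_lt (hE : Sy E) (a b c d e f : V) (k : ℕ) : kb E a b c d e f k < 2 := by
  unfold kb
  split <;> first | exact hE.lt _ _ _ _ | norm_num

theorem lb_lt (hE : Sy E) (a b c d e f z : V) (k : ℕ) : lb E a b c d e f z k < 2 := by
  unfold lb
  split <;> first | exact hE.lt _ _ _ _ | norm_num

theorem kk_lt (hE : Sy E) (a b c d e f : V) : kk E a b c d e f < 2 ^ 15 := pk_lt fun k _ => kb_lt hE a b c d e f k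

theorem pc01_lt {m : ℕ} (hm : m < 2 ^ 15) : pc01 m < 2 ^ 15 := (sb_lt (by norm_num) (by norm_num) (sb_lt (by norm_num) (by norm_num) (sb_lt (by norm_num) (by norm_num) (sb_lt (by norm_num) (by norm_num) hm))))
theorem pc01_kk (hE : Sy E) (a b c d e f : V) : pc01 (kk E a b c d e f) = kk E b a c d e f := by
  unfold pc01 kk
  have hl : ∀ k, kb E a b c d e f k < 2 := kb_lt hE a b c d e f
  repeat rw [sb_pk (by norm_num) (by norm_num) (fun k _ => hl _)]
  refine pk_congr fun k hk => ?_
  interval_cases k <;> simp [sp, kb, hE.s1, hE.s2, hE.s3]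

theorem pc04_lt {m : ℕ} (hm : m < 2 ^ 15) : pc04 m < 2 ^ 15 := (sb_lt (by norm_num) (by norm_num) (sb_lt (by norm_num) (by norm_num) (sb_lt (by norm_num) (by norm_num) (sb_lt (by norm_num) (by norm_num) hm))))
theorem pc04_kk (hE : Sy E) (a b c d e f : V) : pc04 (kk E a b c d e f) = kk E e b c d a f := by
  unfold pc04 kk
  have hl : ∀ k, kb E a b c d e f k < 2 := kb_lt hE a b c d e f
  repeat rw [sb_pk (by norm_num) (by norm_num) (fun k _ => hl _)]
  refine pk_congr fun k hk => ?_
  interval_cases k <;> simp [sp, kb, hE.s1, hE.s2, hE.s3]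

theorem pc05_lt {m : ℕ} (hm : m < 2 ^ 15) : pc05 m < 2 ^ 15 := (sb_lt (by norm_num) (by norm_num) (sb_lt (by norm_num) (by norm_num) (sb_lt (by norm_num) (by norm_num) (sb_lt (by norm_num) (by norm_num) hm))))
theorem pc05_kk (hE : Sy E) (a b c d e f : V) : pc05 (kk E a b c d e f) = kk E f b c d e a := by
  unfold pc05 kk
  have hl : ∀ k, kb E a b c d e f k < 2 := kb_lt hE a b c d e f
  repeat rw [sb_pk (by norm_num) (by norm_num) (fun k _ => hl _)]
  refine pk_congr fun k hk => ?_
  interval_cases k <;> simp [sp, kb, hE.s1, hE.s2, hE.s3]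

theorem pc12_lt {m : ℕ} (hm : m < 2 ^ 15) : pc12 m < 2 ^ 15 := (sb_lt (by norm_num) (by norm_num) (sb_lt (by norm_num) (by norm_num) (sb_lt (by norm_num) (by norm_num) (sb_lt (by norm_num) (by norm_num) hm))))
theorem pc12_kk (hE : Sy E) (a b c d e f : V) : pc12 (kk E a b c d e f) = kk E a c b d e f := by
  unfold pc12 kk
  have hl : ∀ k, kb E a b c d e f k < 2 := kb_lt hE a b c d e f
  repeat rw [sb_pk (by norm_num) (by norm_num) (fun k _ => hl _)]
  refine pk_congr fun k hk => ?_
  interval_cases k <;> simp [sp, kb, hE.s1, hE.s2, hE.s3]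

theorem pc14_lt {m : ℕ} (hm : m < 2 ^ 15) : pc14 m < 2 ^ 15 := (sb_lt (by norm_num) (by norm_num) (sb_lt (by norm_num) (by norm_num) (sb_lt (by norm_num) (by norm_num) (sb_lt (by norm_num) (by norm_num) hm))))
theorem pc14_kk (hE : Sy E) (a b c d e f : V) : pc14 (kk E a b c d e f) = kk E a e c d b f := by
  unfold pc14 kk
  have hl : ∀ k, kb E a b c d e f k < 2 := kb_lt hE a b c d e f
  repeat rw [sb_pk (by norm_num) (by norm_num) (fun k _ => hl _)]
  refine pk_congr fun k hk => ?_
  interval_cases k <;> simp [sp, kb, hE.s1, hE.s2, hE.s3]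

theorem pc15_lt {m : ℕ} (hm : m < 2 ^ 15) : pc15 m < 2 ^ 15 := (sb_lt (by norm_num) (by norm_num) (sb_lt (by norm_num) (by norm_num) (sb_lt (by norm_num) (by norm_num) (sb_lt (by norm_num) (by norm_num) hm))))
theorem pc15_kk (hE : Sy E) (a b c d e f : V) : pc15 (kk E a b c d e f) = kk E a f c d e b := by
  unfold pc15 kk
  have hl : ∀ k, kb E a b c d e f k < 2 := kb_lt hE a b c d e f
  repeat rw [sb_pk (by norm_num) (by norm_num) (fun k _ => hl _)]
  refine pk_congr fun k hk => ?_
  interval_cases k <;> simp [sp, kb, hE.s1, hE.s2, hE.s3]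

theorem pc23_lt {m : ℕ} (hm : m < 2 ^ 15) : pc23 m < 2 ^ 15 := (sb_lt (by norm_num) (by norm_num) (sb_lt (by norm_num) (by norm_num) (sb_lt (by norm_num) (by norm_num) (sb_lt (by norm_num) (by norm_num) hm))))
theorem pc23_kk (hE : Sy E) (a b c d e f : V) : pc23 (kk E a b c d e f) = kk E a b d c e f := by
  unfold pc23 kk
  have hl : ∀ k, kb E a b c d e f k < 2 := kb_lt hE a b c d e f
  repeat rw [sb_pk (by norm_num) (by norm_num) (fun k _ => hl _)]
  refine pk_congr fun k hk => ?_
  interval_cases k <;> simp [sp, kb, hE.s1, hE.s2, hE.s3]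

theorem pc24_lt {m : ℕ} (hm : m < 2 ^ 15) : pc24 m < 2 ^ 15 := (sb_lt (by norm_num) (by norm_num) (sb_lt (by norm_num) (by norm_num) (sb_lt (by norm_num) (by norm_num) (sb_lt (by norm_num) (by norm_num) hm))))
theorem pc24_kk (hE : Sy E) (a b c d e f : V) : pc24 (kk E a b c d e f) = kk E a b e d c f := by
  unfold pc24 kk
  have hl : ∀ k, kb E a b c d e f k < 2 := kb_lt hE a b c d e f
  repeat rw [sb_pk (by norm_num) (by norm_num) (fun k _ => hl _)]
  refine pk_congr fun k hk => ?_
  interval_cases k <;> simp [sp, kb, hE.s1, hE.s2, hE.s3]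

theorem pc25_lt {m : ℕ} (hm : m < 2 ^ 15) : pc25 m < 2 ^ 15 := (sb_lt (by norm_num) (by norm_num) (sb_lt (by norm_num) (by norm_num) (sb_lt (by norm_num) (by norm_num) (sb_lt (by norm_num) (by norm_num) hm))))
theorem pc25_kk (hE : Sy E) (a b c d e f : V) : pc25 (kk E a b c d e f) = kk E a b f d e c := by
  unfold pc25 kk
  have hl : ∀ k, kb E a b c d e f k < 2 := kb_lt hE a b c d e f
  repeat rw [sb_pk (by norm_num) (by norm_num) (fun k _ => hl _)]
  refine pk_congr fun k hk => ?_
  interval_cases k <;> simp [sp, kb, hE.s1, hE.s2, hE.s3]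

theorem pc34_lt {m : ℕ} (hm : m < 2 ^ 15) : pc34 m < 2 ^ 15 := (sb_lt (by norm_num) (by norm_num) (sb_lt (by norm_num) (by norm_num) (sb_lt (by norm_num) (by norm_num) (sb_lt (by norm_num) (by norm_num) hm))))
theorem pc34_kk (hE : Sy E) (a b c d e f : V) : pc34 (kk E a b c d e f) = kk E a b c e d f := by
  unfold pc34 kk
  have hl : ∀ k, kb E a b c d e f k < 2 := kb_lt hE a b c d e f
  repeat rw [sb_pk (by norm_num) (by norm_num) (fun k _ => hl _)]
  refine pk_congr fun k hk => ?_
  interval_cases k <;> simp [sp, kb, hE.s1, hE.s2, hE.s3]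

theorem pc35_lt {m : ℕ} (hm : m < 2 ^ 15) : pc35 m < 2 ^ 15 := (sb_lt (by norm_num) (by norm_num) (sb_lt (by norm_num) (by norm_num) (sb_lt (by norm_num) (by norm_num) (sb_lt (by norm_num) (by norm_num) hm))))
theorem pc35_kk (hE : Sy E) (a b c d e f : V) : pc35 (kk E a b c d e f) = kk E a b c f e d := by
  unfold pc35 kk
  have hl : ∀ k, kb E a b c d e f k < 2 := kb_lt hE a b c d e f
  repeat rw [sb_pk (by norm_num) (by norm_num) (fun k _ => hl _)]
  refine pk_congr fun k hk => ?_
  interval_cases k <;> simp [sp, kb, hE.s1, hE.s2, hE.s3]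

theorem pc45_lt {m : ℕ} (hm : m < 2 ^ 15) : pc45 m < 2 ^ 15 := (sb_lt (by norm_num) (by norm_num) (sb_lt (by norm_num) (by norm_num) (sb_lt (by norm_num) (by norm_num) (sb_lt (by norm_num) (by norm_num) hm))))
theorem pc45_kk (hE : Sy E) (a b c d e f : V) : pc45 (kk E a b c d e f) = kk E a b c d f e := by
  unfold pc45 kk
  have hl : ∀ k, kb E a b c d e f k < 2 := kb_lt hE a b c d e f
  repeat rw [sb_pk (by norm_num) (by norm_num) (fun k _ => hl _)]
  refine pk_congr fun k hk => ?_
  interval_cases k <;> simp [sp, kb, hE.s1, hE.s2, hE.s3]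

end

end Pool.Agent.H21.E
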