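import Pool.Agent.H21.E.Sym1

/-! The scalar products of the flags in terms of the coefficients; positivity. -/

set_option autoImplicit false
set_option maxRecDepth 100000
set_option exponentiation.threshold 40000
open Finset

namespace Pool.Agent.H21.E
open Pool.Agent.T2H33.K6

noncomputable section

theorem tj_lt {j : ℕ} (hj : j < 6) : tj j < 32 := by interval_cases j <;> decide
theorem SG0 : SG 0 = 0 := by
  have h := al_true cK2 (show 0 < 146 by norm_num)
  exact Nat.eq_of_beq_eq_true h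
theorem K2_even {k : ℕ} (hk : k < 146) (h0 : k ≠ 0) : K2 k % 2 = 0 := by
  have h := al_true cK2 hk
  have hb : Nat.beq k 0 = false := by
    rw [← Bool.not_eq_true]; exact fun hh => h0 (Nat.eq_of_beq_eq_true hh)
  rw [hb] at h
  exact Nat.eq_of_beq_eq_true h
theorem Kc_pos {j k : ℕ} (h0 : k ≠ 0) : Kc j k = K2 k / 2 := by
  have hb : Nat.beq k 0 = false := by
    rw [← Bool.not_eq_true]; exact fun hh => h0 (Nat.eq_of_beq_eq_true hh)
  unfold Kc
  rw [hb]
  rfl
theorem cA_all {j : ℕ} (hj : j < 6) : chkA j = true := by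
  interval_cases j
  · exact cA0
  · exact cA1
  · exact cA2
  · exact cA3
  · exact cA4
  · exact cA5
theorem cD_all {j : ℕ} (hj : j < 6) : al 146 (fun i => chkD j i) = true := by
  interval_cases j
  · exact cD0
  · exact cD1
  · exact cD2
  · exact cD3
  · exact cD4
  · exact cD5

attribute [local irreducible] FS rw K2 SG O10 enc fld GV co np wc vc lc tj

/-- the sign of a flag -/
def eps (k x : ℕ) : ℤ := 1 - 2 * (bt x (SG k) : ℤ)
/-- the coefficient -/
def cZ (j k l : ℕ) : ℤ := (co j k l : ℤ) - 1048576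

theorem bt1023' : ∀ k < 10, bt k 1023 ≠ 0 := by decide

theorem BV_eq (l : ℕ) : BV l = enc 32 10 (fun y => bt y (SG l)) := by
  unfold BV
  exact asm_eq _ _ _ _ fun k hk h0 => absurd h0 (bt1023' k hk)

theorem co_sp {j k l : ℕ} (hj : j < 6) (hk : k < 146) (hl : l < 146) : co j k l = co j l k ∧ co j k l < 2097152 := by
  have h := al_true cB hj
  rw [st_eq] at h
  obtain ⟨h1, h2⟩ := cnd_and (al_true (al_true h hk) hl)
  exact ⟨Nat.eq_of_beq_eq_true h1, Nat.le_of_ble_eq_true h2⟩

theorem Kc_sum {j : ℕ} (hj : j < 6) : ∑ k ∈ range 146, Kc j k = 86679345 + 900000 * j := by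
  have h := Nat.eq_of_beq_eq_true (al_true cK hj)
  rw [sm_sum] at h
  exact h

theorem Kc_le {j k : ℕ} (hj : j < 6) (hk : k < 146) : Kc j k ≤ 91179345 := by
  have h := Kc_sum hj
  have h2 := single_le_sum (f := fun k => Kc j k) (fun i _ => Nat.zero_le _) (mem_range.mpr hk)
  have h3 : Kc j k ≤ ∑ x ∈ range 146, Kc j x := h2
  omega

theorem rowA {j k y : ℕ} (hj : j < 6) (hk : k < 146) (hy : y < 2 ^ 10) :
    fld 32 (rw (tj j) k) y + ((∑ l ∈ range 146, 2 * co j k l * bt y (SG l)) + 153092096) =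
      (Kc j k + ∑ l ∈ range 146, co j k l) + (∑ l ∈ range 146, bt y (SG l)) * 2097152 := by
  have hA : Nat.add (rw (tj j) k) (Nat.add (sm 146 (fun l => Nat.mul (Nat.mul 2 (co j k l)) (BV l))) (Nat.mul 153092096 O10)) =
      Nat.add (Nat.mul (Nat.add (Kc j k) (sm 146 (fun l => co j k l))) O10) (Nat.mul 2097152 (sm 146 BV)) :=
    Nat.eq_of_beq_eq_true (al_true (cA_all hj) hk)
  have e1 : sm 146 (fun l => Nat.mul (Nat.mul 2 (co j k l)) (BV l)) =
      enc 32 10 (fun y => ∑ l ∈ range 146, 2 * co j k l * bt y (SG l)) := by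
    refine (sm_congr (g := fun l => enc 32 10 (fun y => 2 * co j k l * bt y (SG l))) fun l _ => ?_).trans
      (sm_enc 32 10 146 (fun l y => 2 * co j k l * bt y (SG l)))
    rw [BV_eq]
    show 2 * co j k l * enc 32 10 _ = _
    rw [mul_comm, enc_mulc]
    exact enc_congr fun i _ => mul_comm _ _
  have e2 : sm 146 BV = enc 32 10 (fun y => ∑ l ∈ range 146, bt y (SG l)) :=
    (sm_congr (g := fun l => enc 32 10 (fun y => bt y (SG l))) fun l _ => BV_eq l).trans
      (sm_enc 32 10 146 (fun l y => bt y (SG l)))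
  have e3 : enc 32 10 (fld 32 (rw (tj j) k)) = rw (tj j) k := enc_fld (by norm_num) (row_lt (tj_lt hj) hk).1
  have e4 : Nat.mul 2097152 (enc 32 10 (fun y => ∑ l ∈ range 146, bt y (SG l))) =
      enc 32 10 (fun y => (∑ l ∈ range 146, bt y (SG l)) * 2097152) := by
    show 2097152 * _ = _
    rw [mul_comm, enc_mulc]
  rw [e1, e2, O10_eq, mul_one_enc, mul_one_enc, e4, sm_sum, ← e3] at hA
  have hA' : enc 32 10 (fun y => fld 32 (rw (tj j) k) y + ((∑ l ∈ range 146, 2 * co j k l * bt y (SG l)) + 153092096)) =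
      enc 32 10 (fun y => (Kc j k + ∑ l ∈ range 146, co j k l) + (∑ l ∈ range 146, bt y (SG l)) * 2097152) := by
    rw [← enc_add, ← enc_add, ← enc_add]
    exact hA
  have s1 : ∀ y, ∑ l ∈ range 146, 2 * co j k l * bt y (SG l) ≤ 612368384 := fun y => by
    calc _ ≤ ∑ l ∈ range 146, 4194304 := sum_le_sum fun l hl => by
          have h1 := (co_sp hj hk (mem_range.mp hl)).2
          have h2 := bt_lt_two' y (SG l)
          calc 2 * co j k l * bt y (SG l) ≤ 2 * co j k l * 1 := Nat.mul_le_mul_left _ (by omega)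
            _ ≤ _ := by omega
      _ = _ := by rw [sum_const, card_range]; norm_num
  have s2 : ∑ l ∈ range 146, co j k l ≤ 306184192 := by
    calc _ ≤ ∑ l ∈ range 146, 2097152 := sum_le_sum fun l hl => le_of_lt (co_sp hj hk (mem_range.mp hl)).2
      _ = _ := by rw [sum_const, card_range]; norm_num
  have s3 : ∀ y, ∑ l ∈ range 146, bt y (SG l) ≤ 146 := fun y => by
    calc _ ≤ ∑ l ∈ range 146, 1 := sum_le_sum fun l _ => by have := bt_lt_two' y (SG l); omega
      _ = _ := by rw [sum_const, card_range]; norm_num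
  refine enc_inj (s := 32) (n := 10) (by norm_num) ?_ ?_ hA' hy
  · intro i hi
    have h1 := (row_lt (tj_lt hj) hk).2 i hi
    have h2 := K2_lt hk
    have h3 := s1 i
    show _ < _
    norm_num at h2 ⊢
    omega
  · intro i hi
    have h1 := Kc_le hj hk
    have h3 := s3 i
    show _ < _
    norm_num
    omega

theorem rowZ {j k y : ℕ} (hj : j < 6) (hk : k < 146) (hy : y < 2 ^ 10) :
    (fld 32 (rw (tj j) k) y : ℤ) = Kc j k + ∑ l ∈ range 146, cZ j k l * eps l y := by
  have h := rowA hj hk hy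
  have h' : (fld 32 (rw (tj j) k) y : ℤ) + ((∑ l ∈ range 146, 2 * (co j k l : ℤ) * (bt y (SG l) : ℤ)) + 153092096) =
      ((Kc j k : ℤ) + ∑ l ∈ range 146, (co j k l : ℤ)) + (∑ l ∈ range 146, (bt y (SG l) : ℤ)) * 2097152 := by exact_mod_cast h
  have e : ∑ l ∈ range 146, cZ j k l * eps l y = (∑ l ∈ range 146, (co j k l : ℤ)) -
      (∑ l ∈ range 146, 2 * (co j k l : ℤ) * (bt y (SG l) : ℤ)) - 153092096 + (∑ l ∈ range 146, (bt y (SG l) : ℤ)) * 2097152 := by
    rw [sum_mul]
    have c : (153092096 : ℤ) = ∑ l ∈ range 146, (1048576 : ℤ) := by rw [sum_const, card_range]; norm_num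
    rw [c, ← sum_sub_distrib, ← sum_sub_distrib, ← sum_add_distrib]
    refine sum_congr rfl fun l _ => ?_
    unfold cZ eps
    ring
  rw [e]
  linarith

theorem qqZ {j x y : ℕ} (hj : j < 6) (hy : y < 2 ^ 10) :
    (qq (tj j) x y : ℤ) = (86679345 + 900000 * (j : ℤ)) + ∑ k ∈ range 146, ∑ l ∈ range 146, cZ j k l * (eps k x * eps l y) := by
  have h0 : ((86679345 : ℤ) + 900000 * (j : ℤ)) = ∑ k ∈ range 146, (Kc j k : ℤ) := by
    have := Kc_sum hj
    exact_mod_cast this.symm
  rw [h0, ← sum_add_distrib]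
  unfold qq FS
  rw [sm_sum]
  push_cast
  refine sum_congr rfl fun k hk => ?_
  have hk' := mem_range.mp hk
  have hr := rowZ hj hk' hy
  have hle := (row_lt (tj_lt hj) hk').2 y hy
  have e : ∑ l ∈ range 146, cZ j k l * (eps k x * eps l y) = eps k x * ∑ l ∈ range 146, cZ j k l * eps l y := by
    rw [mul_sum]
    exact sum_congr rfl fun l _ => by ring
  rw [e]
  rcases bt_cases x (SG k) with ⟨hb, hb'⟩ | ⟨hb, hb'⟩ <;> rw [hb]
  · show ((fld 32 (rw (tj j) k) y : ℕ) : ℤ) = _
    unfold eps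
    rw [hb', hr]
    push_cast
    unfold eps
    ring
  · have hk0 : k ≠ 0 := by
      rintro rfl
      rw [SG0, bt_eq, Nat.zero_div] at hb'
      omega
    show ((K2 k * 1 - fld 32 (rw (tj j) k) y : ℕ) : ℤ) = _
    rw [mul_one, Nat.cast_sub hle, hr]
    have h2 : (K2 k : ℤ) = 2 * Kc j k := by
      have h1 := K2_even hk' hk0
      have h3 := Kc_pos (j := j) hk0
      have : K2 k = 2 * Kc j k := by omega
      exact_mod_cast this
    rw [h2]
    unfold eps
    rw [hb']
    push_cast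
    ring

theorem qq_sym_c {j x y : ℕ} (hj : j < 6) (hx : x < 2 ^ 10) (hy : y < 2 ^ 10) : qq (tj j) x y = qq (tj j) y x := by
  have h : (qq (tj j) x y : ℤ) = qq (tj j) y x := by
    rw [qqZ hj hy, qqZ hj hx]
    congr 1
    rw [sum_comm]
    refine sum_congr rfl fun l hl => sum_congr rfl fun k hk => ?_
    have := (co_sp hj (mem_range.mp hk) (mem_range.mp hl)).1
    unfold cZ
    rw [this]
    ring
  exact_mod_cast h

end

end Pool.Agent.H21.E
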