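import Pool.Agent.H21.E.Sym3
import Pool.Agent.H21.E.Frm

/-! Symmetry of the sum of the frames. -/

set_option autoImplicit false
set_option maxRecDepth 100000
set_option exponentiation.threshold 40000
set_option linter.unusedSimpArgs false
open Finset

namespace Pool.Agent.H21.E
open Pool.Agent.T2H33.K6

noncomputable section

variable {V : Type} {E : V → V → V → V → ℕ}

attribute [local irreducible] FS rw K2 SG O10 enc fld GV XM XY Yv

theorem pv_qq (m l : ℕ) : pv m l = qq (m / 1024) (m % 1024) (l % 1024) := rfl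

/-- the scalar product for the flags with five labelled vertices -/
def PV (E : V → V → V → V → ℕ) (a b c d e x y : V) : ℕ := pv (kk E a b c d e x) (kk E a b c d e y)

/-- the bits of the type -/
def tyb (E : V → V → V → V → ℕ) (a b c d e : V) : ℕ → ℕ
  | 0 => E a b c e
  | 1 => E a b d e
  | 2 => E a c d e
  | 3 => E b c d e
  | 4 => E a b c d
  | _ => 0

theorem kk_ty (hE : Sy E) (a b c d e f : V) : kk E a b c d e f / 1024 = pk 5 (tyb E a b c d e) := by
  unfold kk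
  rw [show (15 : ℕ) = 10 + 5 from rfl, show (1024 : ℕ) = 2 ^ 10 by norm_num, pk_div (fun k _ => kb_lt hE a b c d e f k)]
  refine pk_congr fun k hk => ?_
  interval_cases k <;> rfl

theorem PV_xy (hE : Sy E) (a b c d e x y : V) : PV E a b c d e y x = PV E a b c d e x y := by
  unfold PV
  rw [pv_qq, pv_qq, kk_ty hE a b c d e x, kk_ty hE a b c d e y]
  exact ((Pr_all (pk 5 (tyb E a b c d e)) (by
    rw [← kk_ty hE a b c d e x]; exact Nat.div_lt_of_lt_mul (kk_lt hE a b c d e x))).1 _ (Nat.mod_lt _ (by norm_num)) _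
    (Nat.mod_lt _ (by norm_num)))

theorem GV_inv {p1 q1 p2 q2 p3 q3 p4 q4 N : ℕ} (h1 : p1 < q1) (h1' : q1 < 15) (h2 : p2 < q2) (h2' : q2 < 15)
    (h3 : p3 < q3) (h3' : q3 < 15) (h4 : p4 < q4) (h4' : q4 < 15) (hN : N < 2 ^ (1 * 2 ^ 15))
    (h : swp 1 15 p1 q1 (swp 1 15 p2 q2 (swp 1 15 p3 q3 (swp 1 15 p4 q4 N))) = N) {m : ℕ} (hm : m < 2 ^ 15) :
    fld 1 N (sb p4 q4 (sb p3 q3 (sb p2 q2 (sb p1 q1 m)))) = fld 1 N m := by
  have e : enc 1 15 (fld 1 N) = N := enc_fld (by norm_num) hN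
  set F : ℕ → ℕ := fld 1 N with hF
  have hl : ∀ i, F i < 2 ^ 1 := fun i => fld_lt 1 N i
  have k1 := swp_enc (s := 1) (n := 15) (p := p4) (q := q4) (by norm_num) h4 h4' (f := F) (fun i _ => hl i)
  have k2 := swp_enc (s := 1) (n := 15) (p := p3) (q := q3) (by norm_num) h3 h3' (f := fun i => F (sb p4 q4 i)) (fun i _ => hl _)
  have k3 := swp_enc (s := 1) (n := 15) (p := p2) (q := q2) (by norm_num) h2 h2' (f := fun i => F (sb p4 q4 (sb p3 q3 i))) (fun i _ => hl _)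
  have k4 := swp_enc (s := 1) (n := 15) (p := p1) (q := q1) (by norm_num) h1 h1' (f := fun i => F (sb p4 q4 (sb p3 q3 (sb p2 q2 i)))) (fun i _ => hl _)
  rw [← e, k1, k2, k3, k4] at h
  exact enc_inj (s := 1) (n := 15) (by norm_num) (fun i _ => hl _) (fun i _ => hl i) h hm

theorem GV_lt : GV < 2 ^ (1 * 2 ^ 15) := by
  have h := Nat.le_of_ble_eq_true cGV
  exact h

theorem pc01_mod {m : ℕ} (hm : m < 2 ^ 15) : pc01 m % 1024 = fs01 (m % 1024) ∧ pc01 m / 1024 = ts01 (m / 1024) := by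
  have h2 : ∀ k, bt k m < 2 := fun k => bt_lt_two k m
  have e : pk 15 (fun k => bt k m) = m := pk_self hm
  have e1 : m % 1024 = pk 10 (fun k => bt k m) := by
    conv_lhs => rw [← e]
    exact pk_mod (n := 10) (m := 5) fun k _ => h2 k
  have e2 : m / 1024 = pk 5 (fun k => bt (10 + k) m) := by
    conv_lhs => rw [← e]
    exact pk_div (n := 10) (m := 5) fun k _ => h2 k
  have e3 : pc01 m = pk 15 (fun k => bt (sp 1 3 (sp 2 4 (sp 8 9 (sp 12 13 k)))) m) := by
    conv_lhs => rw [← e]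
    unfold pc01
    repeat rw [sb_pk (by norm_num) (by norm_num) (fun k _ => h2 _)]
  constructor
  · rw [e1, e3, show pk 15 (fun k => bt (sp 1 3 (sp 2 4 (sp 8 9 (sp 12 13 k)))) m) % 1024 =
      pk 10 (fun k => bt (sp 1 3 (sp 2 4 (sp 8 9 (sp 12 13 k)))) m) from pk_mod (n := 10) (m := 5) fun k _ => h2 _]
    unfold fs01
    repeat rw [sb_pk (by norm_num) (by norm_num) (fun k _ => h2 _)]
    refine pk_congr fun k hk => ?_
    interval_cases k <;> simp [sp]
  · rw [e2, e3, show pk 15 (fun k => bt (sp 1 3 (sp 2 4 (sp 8 9 (sp 12 13 k)))) m) / 1024 =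
      pk 5 (fun k => bt (sp 1 3 (sp 2 4 (sp 8 9 (sp 12 13 (10 + k))))) m) from pk_div (n := 10) (m := 5) fun k _ => h2 _]
    unfold ts01
    repeat rw [sb_pk (by norm_num) (by norm_num) (fun k _ => h2 _)]
    refine pk_congr fun k hk => ?_
    interval_cases k <;> simp [sp]

theorem pv_pc01 {m l : ℕ} (hm : m < 2 ^ 15) (hl : l < 2 ^ 15) : pv (pc01 m) (pc01 l) = pv m l := by
  rw [pv_qq, pv_qq, (pc01_mod hm).1, (pc01_mod hm).2, (pc01_mod hl).1]
  exact qq01 (Nat.div_lt_of_lt_mul hm) (Nat.mod_lt _ (by norm_num)) (Nat.mod_lt _ (by norm_num))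

theorem PV_ab (hE : Sy E) (a b c d e x y : V) : PV E b a c d e x y = PV E a b c d e x y := by
  unfold PV
  rw [← pc01_kk hE a b c d e x, ← pc01_kk hE a b c d e y]
  exact pv_pc01 (kk_lt hE _ _ _ _ _ _) (kk_lt hE _ _ _ _ _ _)

theorem gP_ab (hE : Sy E) (a b c d e z : V) : gP (kk E b a c d e z) = gP (kk E a b c d e z) := by
  rw [gP_eq (kk_lt hE _ _ _ _ _ _), gP_eq (kk_lt hE _ _ _ _ _ _), ← pc01_kk hE a b c d e z, bt_fld, bt_fld]
  congr 1
  exact GV_inv (p1 := 1) (q1 := 3) (p2 := 2) (q2 := 4) (p3 := 8) (q3 := 9) (p4 := 12) (q4 := 13)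
    (by norm_num) (by norm_num) (by norm_num) (by norm_num) (by norm_num) (by norm_num) (by norm_num) (by norm_num)
    GV_lt (Nat.eq_of_beq_eq_true cv01) (kk_lt hE a b c d e z)

theorem pc12_mod {m : ℕ} (hm : m < 2 ^ 15) : pc12 m % 1024 = fs12 (m % 1024) ∧ pc12 m / 1024 = ts12 (m / 1024) := by
  have h2 : ∀ k, bt k m < 2 := fun k => bt_lt_two k m
  have e : pk 15 (fun k => bt k m) = m := pk_self hm
  have e1 : m % 1024 = pk 10 (fun k => bt k m) := by
    conv_lhs => rw [← e]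
    exact pk_mod (n := 10) (m := 5) fun k _ => h2 k
  have e2 : m / 1024 = pk 5 (fun k => bt (10 + k) m) := by
    conv_lhs => rw [← e]
    exact pk_div (n := 10) (m := 5) fun k _ => h2 k
  have e3 : pc12 m = pk 15 (fun k => bt (sp 0 1 (sp 4 5 (sp 7 8 (sp 11 12 k)))) m) := by
    conv_lhs => rw [← e]
    unfold pc12
    repeat rw [sb_pk (by norm_num) (by norm_num) (fun k _ => h2 _)]
  constructor
  · rw [e1, e3, show pk 15 (fun k => bt (sp 0 1 (sp 4 5 (sp 7 8 (sp 11 12 k)))) m) % 1024 =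
      pk 10 (fun k => bt (sp 0 1 (sp 4 5 (sp 7 8 (sp 11 12 k)))) m) from pk_mod (n := 10) (m := 5) fun k _ => h2 _]
    unfold fs12
    repeat rw [sb_pk (by norm_num) (by norm_num) (fun k _ => h2 _)]
    refine pk_congr fun k hk => ?_
    interval_cases k <;> simp [sp]
  · rw [e2, e3, show pk 15 (fun k => bt (sp 0 1 (sp 4 5 (sp 7 8 (sp 11 12 k)))) m) / 1024 =
      pk 5 (fun k => bt (sp 0 1 (sp 4 5 (sp 7 8 (sp 11 12 (10 + k))))) m) from pk_div (n := 10) (m := 5) fun k _ => h2 _]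
    unfold ts12
    repeat rw [sb_pk (by norm_num) (by norm_num) (fun k _ => h2 _)]
    refine pk_congr fun k hk => ?_
    interval_cases k <;> simp [sp]

theorem pv_pc12 {m l : ℕ} (hm : m < 2 ^ 15) (hl : l < 2 ^ 15) : pv (pc12 m) (pc12 l) = pv m l := by
  rw [pv_qq, pv_qq, (pc12_mod hm).1, (pc12_mod hm).2, (pc12_mod hl).1]
  exact qq12 (Nat.div_lt_of_lt_mul hm) (Nat.mod_lt _ (by norm_num)) (Nat.mod_lt _ (by norm_num))

theorem PV_bc (hE : Sy E) (a b c d e x y : V) : PV E a c b d e x y = PV E a b c d e x y := by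
  unfold PV
  rw [← pc12_kk hE a b c d e x, ← pc12_kk hE a b c d e y]
  exact pv_pc12 (kk_lt hE _ _ _ _ _ _) (kk_lt hE _ _ _ _ _ _)

theorem gP_bc (hE : Sy E) (a b c d e z : V) : gP (kk E a c b d e z) = gP (kk E a b c d e z) := by
  rw [gP_eq (kk_lt hE _ _ _ _ _ _), gP_eq (kk_lt hE _ _ _ _ _ _), ← pc12_kk hE a b c d e z, bt_fld, bt_fld]
  congr 1
  exact GV_inv (p1 := 0) (q1 := 1) (p2 := 4) (q2 := 5) (p3 := 7) (q3 := 8) (p4 := 11) (q4 := 12)
    (by norm_num) (by norm_num) (by norm_num) (by norm_num) (by norm_num) (by norm_num) (by norm_num) (by norm_num)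
    GV_lt (Nat.eq_of_beq_eq_true cv12) (kk_lt hE a b c d e z)

theorem pc23_mod {m : ℕ} (hm : m < 2 ^ 15) : pc23 m % 1024 = fs23 (m % 1024) ∧ pc23 m / 1024 = ts23 (m / 1024) := by
  have h2 : ∀ k, bt k m < 2 := fun k => bt_lt_two k m
  have e : pk 15 (fun k => bt k m) = m := pk_self hm
  have e1 : m % 1024 = pk 10 (fun k => bt k m) := by
    conv_lhs => rw [← e]
    exact pk_mod (n := 10) (m := 5) fun k _ => h2 k
  have e2 : m / 1024 = pk 5 (fun k => bt (10 + k) m) := by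
    conv_lhs => rw [← e]
    exact pk_div (n := 10) (m := 5) fun k _ => h2 k
  have e3 : pc23 m = pk 15 (fun k => bt (sp 1 2 (sp 3 4 (sp 6 7 (sp 10 11 k)))) m) := by
    conv_lhs => rw [← e]
    unfold pc23
    repeat rw [sb_pk (by norm_num) (by norm_num) (fun k _ => h2 _)]
  constructor
  · rw [e1, e3, show pk 15 (fun k => bt (sp 1 2 (sp 3 4 (sp 6 7 (sp 10 11 k)))) m) % 1024 =
      pk 10 (fun k => bt (sp 1 2 (sp 3 4 (sp 6 7 (sp 10 11 k)))) m) from pk_mod (n := 10) (m := 5) fun k _ => h2 _]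
    unfold fs23
    repeat rw [sb_pk (by norm_num) (by norm_num) (fun k _ => h2 _)]
    refine pk_congr fun k hk => ?_
    interval_cases k <;> simp [sp]
  · rw [e2, e3, show pk 15 (fun k => bt (sp 1 2 (sp 3 4 (sp 6 7 (sp 10 11 k)))) m) / 1024 =
      pk 5 (fun k => bt (sp 1 2 (sp 3 4 (sp 6 7 (sp 10 11 (10 + k))))) m) from pk_div (n := 10) (m := 5) fun k _ => h2 _]
    unfold ts23
    repeat rw [sb_pk (by norm_num) (by norm_num) (fun k _ => h2 _)]
    refine pk_congr fun k hk => ?_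
    interval_cases k <;> simp [sp]

theorem pv_pc23 {m l : ℕ} (hm : m < 2 ^ 15) (hl : l < 2 ^ 15) : pv (pc23 m) (pc23 l) = pv m l := by
  rw [pv_qq, pv_qq, (pc23_mod hm).1, (pc23_mod hm).2, (pc23_mod hl).1]
  exact qq23 (Nat.div_lt_of_lt_mul hm) (Nat.mod_lt _ (by norm_num)) (Nat.mod_lt _ (by norm_num))

theorem PV_cd (hE : Sy E) (a b c d e x y : V) : PV E a b d c e x y = PV E a b c d e x y := by
  unfold PV
  rw [← pc23_kk hE a b c d e x, ← pc23_kk hE a b c d e y]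
  exact pv_pc23 (kk_lt hE _ _ _ _ _ _) (kk_lt hE _ _ _ _ _ _)

theorem gP_cd (hE : Sy E) (a b c d e z : V) : gP (kk E a b d c e z) = gP (kk E a b c d e z) := by
  rw [gP_eq (kk_lt hE _ _ _ _ _ _), gP_eq (kk_lt hE _ _ _ _ _ _), ← pc23_kk hE a b c d e z, bt_fld, bt_fld]
  congr 1
  exact GV_inv (p1 := 1) (q1 := 2) (p2 := 3) (q2 := 4) (p3 := 6) (q3 := 7) (p4 := 10) (q4 := 11)
    (by norm_num) (by norm_num) (by norm_num) (by norm_num) (by norm_num) (by norm_num) (by norm_num) (by norm_num)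
    GV_lt (Nat.eq_of_beq_eq_true cv23) (kk_lt hE a b c d e z)

theorem pc34_mod {m : ℕ} (hm : m < 2 ^ 15) : pc34 m % 1024 = fs34 (m % 1024) ∧ pc34 m / 1024 = ts34 (m / 1024) := by
  have h2 : ∀ k, bt k m < 2 := fun k => bt_lt_two k m
  have e : pk 15 (fun k => bt k m) = m := pk_self hm
  have e1 : m % 1024 = pk 10 (fun k => bt k m) := by
    conv_lhs => rw [← e]
    exact pk_mod (n := 10) (m := 5) fun k _ => h2 k
  have e2 : m / 1024 = pk 5 (fun k => bt (10 + k) m) := by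
    conv_lhs => rw [← e]
    exact pk_div (n := 10) (m := 5) fun k _ => h2 k
  have e3 : pc34 m = pk 15 (fun k => bt (sp 0 7 (sp 1 8 (sp 3 9 (sp 10 14 k)))) m) := by
    conv_lhs => rw [← e]
    unfold pc34
    repeat rw [sb_pk (by norm_num) (by norm_num) (fun k _ => h2 _)]
  constructor
  · rw [e1, e3, show pk 15 (fun k => bt (sp 0 7 (sp 1 8 (sp 3 9 (sp 10 14 k)))) m) % 1024 =
      pk 10 (fun k => bt (sp 0 7 (sp 1 8 (sp 3 9 (sp 10 14 k)))) m) from pk_mod (n := 10) (m := 5) fun k _ => h2 _]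
    unfold fs34
    repeat rw [sb_pk (by norm_num) (by norm_num) (fun k _ => h2 _)]
    refine pk_congr fun k hk => ?_
    interval_cases k <;> simp [sp]
  · rw [e2, e3, show pk 15 (fun k => bt (sp 0 7 (sp 1 8 (sp 3 9 (sp 10 14 k)))) m) / 1024 =
      pk 5 (fun k => bt (sp 0 7 (sp 1 8 (sp 3 9 (sp 10 14 (10 + k))))) m) from pk_div (n := 10) (m := 5) fun k _ => h2 _]
    unfold ts34
    repeat rw [sb_pk (by norm_num) (by norm_num) (fun k _ => h2 _)]
    refine pk_congr fun k hk => ?_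
    interval_cases k <;> simp [sp]

theorem pv_pc34 {m l : ℕ} (hm : m < 2 ^ 15) (hl : l < 2 ^ 15) : pv (pc34 m) (pc34 l) = pv m l := by
  rw [pv_qq, pv_qq, (pc34_mod hm).1, (pc34_mod hm).2, (pc34_mod hl).1]
  exact qq34 (Nat.div_lt_of_lt_mul hm) (Nat.mod_lt _ (by norm_num)) (Nat.mod_lt _ (by norm_num))

theorem PV_de (hE : Sy E) (a b c d e x y : V) : PV E a b c e d x y = PV E a b c d e x y := by
  unfold PV
  rw [← pc34_kk hE a b c d e x, ← pc34_kk hE a b c d e y]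
  exact pv_pc34 (kk_lt hE _ _ _ _ _ _) (kk_lt hE _ _ _ _ _ _)

theorem gP_de (hE : Sy E) (a b c d e z : V) : gP (kk E a b c e d z) = gP (kk E a b c d e z) := by
  rw [gP_eq (kk_lt hE _ _ _ _ _ _), gP_eq (kk_lt hE _ _ _ _ _ _), ← pc34_kk hE a b c d e z, bt_fld, bt_fld]
  congr 1
  exact GV_inv (p1 := 0) (q1 := 7) (p2 := 1) (q2 := 8) (p3 := 3) (q3 := 9) (p4 := 10) (q4 := 14)
    (by norm_num) (by norm_num) (by norm_num) (by norm_num) (by norm_num) (by norm_num) (by norm_num) (by norm_num)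
    GV_lt (Nat.eq_of_beq_eq_true cv34) (kk_lt hE a b c d e z)

theorem TT_PV (a b c d e f z : V) : TT E a b c d e f z = PV E a b c d z f e := rfl
theorem YY_PV (a b c d e f z : V) : YY E a b c d e f z = PV E a b c d e f z + gP (kk E a b c d e z) := rfl

theorem YY_ab (hE : Sy E) (a b c d e f z : V) : YY E b a c d e f z = YY E a b c d e f z := by
  rw [YY_PV, YY_PV, PV_ab hE, gP_ab hE]
theorem YY_bc (hE : Sy E) (a b c d e f z : V) : YY E a c b d e f z = YY E a b c d e f z := by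
  rw [YY_PV, YY_PV, PV_bc hE, gP_bc hE]
theorem YY_cd (hE : Sy E) (a b c d e f z : V) : YY E a b d c e f z = YY E a b c d e f z := by
  rw [YY_PV, YY_PV, PV_cd hE, gP_cd hE]
theorem YY_de (hE : Sy E) (a b c d e f z : V) : YY E a b c e d f z = YY E a b c d e f z := by
  rw [YY_PV, YY_PV, PV_de hE, gP_de hE]
theorem TT_ab (hE : Sy E) (a b c d e f z : V) : TT E b a c d e f z = TT E a b c d e f z := by
  rw [TT_PV, TT_PV, PV_ab hE]
theorem TT_bc (hE : Sy E) (a b c d e f z : V) : TT E a c b d e f z = TT E a b c d e f z := by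
  rw [TT_PV, TT_PV, PV_bc hE]
theorem TT_cd (hE : Sy E) (a b c d e f z : V) : TT E a b d c e f z = TT E a b c d e f z := by
  rw [TT_PV, TT_PV, PV_cd hE]
theorem TT_ef (hE : Sy E) (a b c d e f z : V) : TT E a b c d f e z = TT E a b c d e f z := by
  rw [TT_PV, TT_PV, PV_xy hE]

theorem W0_ab (hE : Sy E) (a b c d e f z : V) : W0 E b a c d e f z = W0 E a b c d e f z := by
  simp only [W0, TT_ab hE, TT_bc hE, TT_cd hE, TT_ef hE, YY_ab hE, YY_bc hE, YY_cd hE, YY_de hE]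
  ring

theorem W0_bc (hE : Sy E) (a b c d e f z : V) : W0 E a c b d e f z = W0 E a b c d e f z := by
  simp only [W0, TT_ab hE, TT_bc hE, TT_cd hE, TT_ef hE, YY_ab hE, YY_bc hE, YY_cd hE, YY_de hE]
  ring

theorem W0_cd (hE : Sy E) (a b c d e f z : V) : W0 E a b d c e f z = W0 E a b c d e f z := by
  simp only [W0, TT_ab hE, TT_bc hE, TT_cd hE, TT_ef hE, YY_ab hE, YY_bc hE, YY_cd hE, YY_de hE]
  ring

theorem W0_de (hE : Sy E) (a b c d e f z : V) : W0 E a b c e d f z = W0 E a b c d e f z := by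
  simp only [W0, TT_ab hE, TT_bc hE, TT_cd hE, TT_ef hE, YY_ab hE, YY_bc hE, YY_cd hE, YY_de hE]
  ring

theorem W0_ef (hE : Sy E) (a b c d e f z : V) : W0 E a b c d f e z = W0 E a b c d e f z := by
  simp only [W0, TT_ab hE, TT_bc hE, TT_cd hE, TT_ef hE, YY_ab hE, YY_bc hE, YY_cd hE, YY_de hE]
  ring

end

end Pool.Agent.H21.E
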